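import Pool.Agent.TH94.MK.Main

/-!
Domains with compact quotient by affine groups whose linear parts are bounded from below on members
of a compact invariant family of pairwise transverse subspaces (plates): the boundary is a union
of parallel plates, fixed by the linear holonomy. This is the situation of linear representations
of groups of real rank one.
-/

set_option autoImplicit false

open Set Filter Topology Metric
open Pool.Agent.W689.Mk Pool.Agent.TH94.MK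

namespace Pool.Agent.R522.Mk.Rk

section lin
variable {E F : Type} [NormedAddCommGroup E] [NormedSpace ℝ E] [FiniteDimensional ℝ E]
  [NormedAddCommGroup F] [NormedSpace ℝ F]

/-- the ranges of the two maps are transverse -/
def Trans (k l : F →L[ℝ] E) : Prop := ∀ e : E, ∃ f f' : F, k f - l f' = e

/-- the family: any two ranges are equal or transverse -/
def Fam (P : Set (F →L[ℝ] E)) : Prop :=
  ∀ k ∈ P, ∀ l ∈ P, range k = range l ∨ Trans k l

/-- `k` is the limit of plates with discs of radius `ρ` in `Ω` about points converging to `q` -/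
def Lim (P : Set (F →L[ℝ] E)) (Ω : Set E) (ρ : ℝ) (q : E) (k : F →L[ℝ] E) : Prop :=
  k ∈ P ∧ ∃ (z : ℕ → E) (Ψ : ℕ → F →L[ℝ] E), Tendsto z atTop (𝓝 q) ∧
    Tendsto Ψ atTop (𝓝 k) ∧ ∀ j f, ‖Ψ j f‖ ≤ ρ → z j + Ψ j f ∈ Ω

variable [FiniteDimensional ℝ F]

theorem crossing {P : Set (F →L[ℝ] E)} {Ω : Set E} {ρ : ℝ} (hρ : 0 < ρ) {q : E}
    {k' : F →L[ℝ] E} (h : Lim P Ω ρ q k') {k : F →L[ℝ] E} {ε : ℝ} (hε : 0 < ε)
    (hpl : ∀ f, ‖k f‖ < ε → q + k f ∉ Ω) : ¬ Trans k k' := by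
  intro ht
  obtain ⟨-, z, Ψ, hz, hΨ, hin⟩ := h
  haveI : CompleteSpace E := FiniteDimensional.complete ℝ E
  let T : (F →L[ℝ] E) → (F × F →L[ℝ] E) := fun l =>
    k.comp (ContinuousLinearMap.fst ℝ F F) - l.comp (ContinuousLinearMap.snd ℝ F F)
  have hTs : Function.Surjective (T k' : F × F →ₗ[ℝ] E) := by
    intro e
    obtain ⟨f, f', hf⟩ := ht e
    exact ⟨(f, f'), hf⟩
  obtain ⟨R0, hR0⟩ := (T k' : F × F →ₗ[ℝ] E).exists_rightInverse_of_surjective
    (LinearMap.range_eq_top.2 hTs)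
  let R : E →L[ℝ] F × F := LinearMap.toContinuousLinearMap R0
  have hR : (T k').comp R = ContinuousLinearMap.id ℝ E := by
    ext e
    exact congrArg (fun g : E →ₗ[ℝ] E => g e) hR0
  -- perturbation
  let S : ℕ → E →L[ℝ] E := fun j => (T (Ψ j)).comp R
  have hT : Tendsto (fun j => T (Ψ j)) atTop (𝓝 (T k')) := by
    have h1 : Continuous T := by
      refine continuous_const.sub ?_
      exact (ContinuousLinearMap.compL ℝ (F × F) F E).flip
        (ContinuousLinearMap.snd ℝ F F) |>.continuous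
    exact (h1.tendsto k').comp hΨ
  have hS : Tendsto S atTop (𝓝 (1 : E →L[ℝ] E)) := by
    have h1 : Continuous fun t : F × F →L[ℝ] E => t.comp R :=
      ((ContinuousLinearMap.compL ℝ E (F × F) E).flip R).continuous
    have h2 := (h1.tendsto (T k')).comp hT
    rw [hR] at h2
    exact h2
  have hunit : ∀ᶠ j in atTop, IsUnit (S j) :=
    hS.eventually (Units.isOpen.mem_nhds isUnit_one)
  have hinvS : Tendsto (fun j => Ring.inverse (S j)) atTop (𝓝 (1 : E →L[ℝ] E)) := by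
    have h1 := (NormedRing.inverse_continuousAt (1 : (E →L[ℝ] E)ˣ)).tendsto.comp hS
    have h2 : Tendsto (Ring.inverse ∘ S) atTop (𝓝 (1 : E →L[ℝ] E)) := by simpa using h1
    exact h2
  let d : ℕ → E := fun j => z j - q
  have hd : Tendsto d atTop (𝓝 0) := by
    have := hz.sub_const q
    rwa [sub_self] at this
  let g : ℕ → F × F := fun j => R (Ring.inverse (S j) (d j))
  have hg : Tendsto g atTop (𝓝 0) := by
    have h1 : Tendsto (fun j => Ring.inverse (S j) (d j)) atTop (𝓝 ((1 : E →L[ℝ] E) 0)) :=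
      (isBoundedBilinearMap_apply (𝕜 := ℝ) (E := E) (F := E)).continuous.tendsto
        ((1 : E →L[ℝ] E), (0 : E)) |>.comp (hinvS.prodMk_nhds hd)
    have h2 := (R.continuous.tendsto _).comp h1
    rw [map_zero, map_zero] at h2
    exact h2
  have hg1 : Tendsto (fun j => (g j).1) atTop (𝓝 0) := (continuous_fst.tendsto _).comp hg
  have hg2 : Tendsto (fun j => (g j).2) atTop (𝓝 0) := (continuous_snd.tendsto _).comp hg
  have e1 : ∀ᶠ j in atTop, ‖k (g j).1‖ < ε := by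
    have h1 := ((k.continuous.tendsto 0).comp hg1).norm
    rw [map_zero, norm_zero] at h1
    exact h1.eventually_lt_const hε
  have e2 : ∀ᶠ j in atTop, ‖Ψ j (g j).2‖ < ρ := by
    have h1 : Tendsto (fun j => Ψ j (g j).2) atTop (𝓝 (k' 0)) :=
      (isBoundedBilinearMap_apply (𝕜 := ℝ) (E := F) (F := E)).continuous.tendsto
        (k', (0 : F)) |>.comp (hΨ.prodMk_nhds hg2)
    rw [map_zero] at h1
    have h2 := h1.norm
    rw [norm_zero] at h2
    exact h2.eventually_lt_const hρ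
  obtain ⟨j, j1, j2, j3⟩ := (e1.and (e2.and hunit)).exists
  have h3 : k (g j).1 - Ψ j (g j).2 = z j - q := by
    have h4 : S j (Ring.inverse (S j) (d j)) = d j := by
      have h5 : S j * Ring.inverse (S j) = 1 := Ring.mul_inverse_cancel _ j3
      exact congrArg (fun t : E →L[ℝ] E => t (d j)) h5
    exact h4
  apply hpl _ j1
  have h6 : q + k (g j).1 = z j + Ψ j (g j).2 := by
    rw [sub_eq_sub_iff_add_eq_add] at h3
    rw [add_comm q, h3]
  rw [h6]
  exact hin j _ j2.le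

/-- a limit plate with a disc outside of `Ω` -/
def Good (P : Set (F →L[ℝ] E)) (Ω : Set E) (ρ : ℝ) (q : E) (k : F →L[ℝ] E) : Prop :=
  Lim P Ω ρ q k ∧ ∀ f, ‖k f‖ < ρ → q + k f ∉ Ω

theorem Good.closure {P : Set (F →L[ℝ] E)} {Ω : Set E} {ρ : ℝ} {q : E} {k : F →L[ℝ] E}
    (h : Good P Ω ρ q k) {f : F} (hf : ‖k f‖ < ρ) : q + k f ∈ closure Ω := by
  obtain ⟨⟨-, z, Ψ, hz, hΨ, hin⟩, -⟩ := h
  have h1 : Tendsto (fun j => Ψ j f) atTop (𝓝 (k f)) :=
    ((ContinuousLinearMap.apply ℝ E f).continuous.tendsto k).comp hΨ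
  have e1 : ∀ᶠ j in atTop, ‖Ψ j f‖ < ρ := h1.norm.eventually_lt_const hf
  refine mem_closure_of_tendsto (hz.add h1) ?_
  filter_upwards [e1] with j j1
  exact hin j _ j1.le

theorem step {P : Set (F →L[ℝ] E)} (hP : Fam P) {Ω : Set E} {ρ : ℝ} (hρ : 0 < ρ) {q : E}
    {k : F →L[ℝ] E} (h : Good P Ω ρ q k) {f : F} (hf : ‖k f‖ < ρ / 2) {k' : F →L[ℝ] E}
    (h' : Good P Ω ρ (q + k f) k') : range k = range k' := by
  refine (hP k h.1.1 k' h'.1.1).resolve_right ?_
  refine crossing hρ h'.1 (ε := ρ / 2) (by linarith) fun g hg => ?_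
  rw [add_assoc, ← map_add]
  refine h.2 _ ?_
  rw [map_add]
  calc ‖k f + k g‖ ≤ ‖k f‖ + ‖k g‖ := norm_add_le _ _
    _ < ρ := by linarith

/-- the whole plate belongs to the boundary -/
theorem whole {P : Set (F →L[ℝ] E)} (hP : Fam P) {Ω : Set E} {ρ : ℝ} (hρ : 0 < ρ)
    (hB : ∀ p ∈ closure Ω, p ∉ Ω → ∃ k, Good P Ω ρ p k) {p : E} {k : F →L[ℝ] E}
    (h : Good P Ω ρ p k) (f : F) :
    p + k f ∈ closure Ω ∧ p + k f ∉ Ω ∧ ∃ k', Good P Ω ρ (p + k f) k' ∧ range k = range k' := by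
  obtain ⟨N, hN⟩ := exists_nat_gt (‖k f‖ / (ρ / 2))
  have hN0 : (0 : ℝ) < N := lt_of_le_of_lt (by positivity) hN
  have hstep : ‖((N : ℝ)⁻¹) • k f‖ < ρ / 2 := by
    rw [norm_smul, norm_inv, Real.norm_of_nonneg hN0.le]
    rw [div_lt_iff₀ (by positivity)] at hN
    rw [inv_mul_lt_iff₀ hN0]
    exact hN
  have key : ∀ i : ℕ, ∃ k', Good P Ω ρ (p + ((i : ℝ) * (N : ℝ)⁻¹) • k f) k' ∧
      range k = range k' := by
    intro i
    induction i with
    | zero =>
      refine ⟨k, ?_, rfl⟩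
      simpa using h
    | succ i ih =>
      obtain ⟨k1, h1, h2⟩ := ih
      obtain ⟨f1, hf1⟩ : ((N : ℝ)⁻¹) • k f ∈ range k1 := by
        rw [← h2]
        exact ⟨(N : ℝ)⁻¹ • f, map_smul _ _ _⟩
      have e1 : p + (((i + 1 : ℕ) : ℝ) * (N : ℝ)⁻¹) • k f =
          p + ((i : ℝ) * (N : ℝ)⁻¹) • k f + k1 f1 := by
        rw [hf1]
        push_cast
        module
      have hs1 : ‖k1 f1‖ < ρ / 2 := by rw [hf1]; exact hstep
      have h4 := h1.closure (hs1.trans (by linarith))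
      have h5 := h1.2 f1 (hs1.trans (by linarith))
      obtain ⟨k2, h6⟩ := hB _ h4 h5
      rw [e1]
      exact ⟨k2, h6, h2.trans (step hP hρ h1 hs1 h6)⟩
  obtain ⟨k', h1, h2⟩ := key N
  rw [mul_inv_cancel₀ hN0.ne', one_smul] at h1
  refine ⟨?_, ?_, k', h1, h2⟩
  · have := h1.closure (f := 0) (by rw [map_zero, norm_zero]; exact hρ)
    rwa [map_zero, add_zero] at this
  · have := h1.2 0 (by rw [map_zero, norm_zero]; exact hρ)
    rwa [map_zero, add_zero] at this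

/-- all boundary plates are parallel -/
theorem parallel {P : Set (F →L[ℝ] E)} (hP : Fam P) {Ω : Set E} {ρ : ℝ} (hρ : 0 < ρ)
    (hB : ∀ p ∈ closure Ω, p ∉ Ω → ∃ k, Good P Ω ρ p k) {p q : E} {k l : F →L[ℝ] E}
    (h : Good P Ω ρ p k) (h' : Good P Ω ρ q l) : range k = range l := by
  refine (hP k h.1.1 l h'.1.1).resolve_right fun ht => ?_
  obtain ⟨f, f', hff⟩ := ht (q - p)
  have e : p + k f = q + l f' := by
    rw [sub_eq_sub_iff_add_eq_add] at hff
    rw [add_comm p, hff]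
  obtain ⟨c1, c2, k1, c3, c4⟩ := whole hP hρ hB h f
  obtain ⟨d1, d2, l1, d3, d4⟩ := whole hP hρ hB h' f'
  rw [e] at c3
  have h1 := crossing hρ c3.1 hρ d3.2
  apply h1
  intro v
  obtain ⟨g, g', hg⟩ := ht (-v)
  obtain ⟨a, ha⟩ : l g' ∈ range l1 := by rw [← d4]; exact mem_range_self _
  obtain ⟨b, hb⟩ : k g ∈ range k1 := by rw [← c4]; exact mem_range_self _
  refine ⟨a, b, ?_⟩
  rw [ha, hb, ← neg_sub, hg, neg_neg]

end lin

section good
variable {E F Γ : Type} [NormedAddCommGroup E] [NormedSpace ℝ E] [FiniteDimensional ℝ E]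
  [NormedAddCommGroup F] [NormedSpace ℝ F] [FiniteDimensional ℝ F]
  [Group Γ] {hol : Γ →* (E ≃ᵃ[ℝ] E)}

theorem good_of_boundary {P : Set (F →L[ℝ] E)} (hPc : IsCompact P) {Ω : Set E} (hΩ : IsOpen Ω)
    (hinv : ∀ (γ : Γ), ∀ q ∈ Ω, hol γ q ∈ Ω)
    (hpd : ∀ C : Set E, IsCompact C → C ⊆ Ω → {γ : Γ | ∃ c ∈ C, hol γ c ∈ C}.Finite)
    {C0 : Set E} (hC0 : IsCompact C0) (hC0Ω : C0 ⊆ Ω)
    (hcc : ∀ q ∈ Ω, ∃ γ : Γ, ∃ c ∈ C0, hol γ c = q) {δ : ℝ} (hδ : 0 < δ)
    (hV : ∀ γ : Γ, ∃ k ∈ P, ∀ f, δ * ‖(hol γ).linear.symm (k f)‖ ≤ ‖k f‖) :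
    ∃ ρ > 0, ∀ p ∈ closure Ω, p ∉ Ω → ∃ k, Good P Ω ρ p k := by
  have : ProperSpace E := FiniteDimensional.proper_real E
  obtain ⟨r, hr, hrΩ⟩ := hC0.exists_cthickening_subset_open hΩ hC0Ω
  refine ⟨δ * r, by positivity, fun p hp hpΩ => ?_⟩
  obtain ⟨a, haΩ, ha⟩ := mem_closure_iff_seq_limit.1 hp
  choose γ c hc hγc using fun k => hcc (a k) (haΩ k)
  have hC1 : IsCompact (cthickening r C0) := hC0.cthickening
  have hin : ∀ k (w : E), ‖w‖ ≤ r → c k + w ∈ cthickening r C0 := by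
    intro k w hw
    refine mem_cthickening_of_dist_le _ _ _ _ (hc k) ?_
    rw [dist_eq_norm, add_sub_cancel_left]; exact hw
  have hmove : ∀ k (w : E), hol (γ k) (c k + w) = a k + (hol (γ k)).linear w := by
    intro k w
    rw [hol_add, hγc k]
  -- first claim
  have claim1 : ∀ q ∈ Ω, ∃ ε > 0, ∀ᶠ k in atTop, ∀ w : E, ‖w‖ ≤ r →
      a k + (hol (γ k)).linear w ∉ closedBall q ε := by
    intro q hq
    obtain ⟨ε, hε, hεΩ⟩ := Metric.nhds_basis_closedBall.mem_iff.1 (hΩ.mem_nhds hq)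
    refine ⟨ε, hε, ?_⟩
    have hC : IsCompact (cthickening r C0 ∪ closedBall q ε) := hC1.union (isCompact_closedBall _ _)
    have hCΩ : cthickening r C0 ∪ closedBall q ε ⊆ Ω := union_subset hrΩ hεΩ
    have hF := hpd _ hC hCΩ
    set G := {γ : Γ | ∃ c ∈ cthickening r C0 ∪ closedBall q ε,
      hol γ c ∈ cthickening r C0 ∪ closedBall q ε} with hFdef
    have hT : IsCompact (⋃ g ∈ G, hol g '' C0) :=
      hF.isCompact_biUnion fun g _ => hC0.image (hol_cont g)
    have hpT : p ∉ ⋃ g ∈ G, hol g '' C0 := by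
      intro hcon
      obtain ⟨g, _, hcon⟩ := mem_iUnion₂.1 hcon
      obtain ⟨c', hc', rfl⟩ := hcon
      exact hpΩ (hinv g c' (hC0Ω hc'))
    have hev : ∀ᶠ k in atTop, a k ∉ ⋃ g ∈ G, hol g '' C0 :=
      ha.eventually (hT.isClosed.isOpen_compl.mem_nhds hpT)
    filter_upwards [hev] with k hk w hw hcon
    apply hk
    refine mem_iUnion₂.2 ⟨γ k, ?_, c k, hc k, hγc k⟩
    refine ⟨c k + w, Or.inl (hin k w hw), Or.inr ?_⟩
    rw [hmove]; exact hcon
  choose g hg1 hg2 using fun k => hV (γ k)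
  have hg3 : ∀ k f, ‖g k f‖ ≤ δ * r → ∃ v, ‖v‖ ≤ r ∧ (hol (γ k)).linear v = g k f := by
    intro k f hf
    refine ⟨(hol (γ k)).linear.symm (g k f), ?_, by simp⟩
    exact le_of_mul_le_mul_left ((hg2 k f).trans hf) hδ
  obtain ⟨k0, hk0, φ, hφ, hφt⟩ := hPc.tendsto_subseq hg1
  have hφa := hφ.tendsto_atTop
  refine ⟨k0, ⟨hk0, fun k => a (φ k), fun k => g (φ k), ha.comp hφa, hφt, ?_⟩, ?_⟩
  · intro j f hf
    obtain ⟨v, hv, hve⟩ := hg3 (φ j) f hf
    show a (φ j) + g (φ j) f ∈ Ω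
    rw [← hve, ← hmove]
    exact hinv _ _ (hrΩ (hin _ v hv))
  · intro f hf hq
    obtain ⟨ε, hε, hev⟩ := claim1 _ hq
    have h0 : Tendsto (fun j => g (φ j) f) atTop (𝓝 (k0 f)) :=
      ((ContinuousLinearMap.apply ℝ E f).continuous.tendsto k0).comp hφt
    have h1 : Tendsto (fun k => a (φ k) + g (φ k) f) atTop (𝓝 (p + k0 f)) := (ha.comp hφa).add h0
    have h2 : ∀ᶠ j in atTop, ‖g (φ j) f‖ < δ * r := h0.norm.eventually_lt_const hf
    obtain ⟨k, hk1, hk2, hk4⟩ := ((h1.eventually (closedBall_mem_nhds _ hε)).and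
      ((hφa.eventually hev).and h2)).exists
    obtain ⟨v, hv, hve⟩ := hg3 (φ k) f hk4.le
    refine hk2 v hv ?_
    rw [hve]; exact hk1

end good

section main
variable {E F Γ X : Type} [NormedAddCommGroup E] [NormedSpace ℝ E] [FiniteDimensional ℝ E]
  [NormedAddCommGroup F] [NormedSpace ℝ F] [FiniteDimensional ℝ F]
  [Group Γ] {hol : Γ →* (E ≃ᵃ[ℝ] E)}
  [TopologicalSpace X] [T2Space X] [SecondCountableTopology X] [ConnectedSpace X] [MulAction Γ X]
  {dev : X → E}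

/-- either the structure is complete, or the linear holonomy preserves a plate, whose directions
are complete -/
theorem fixed_plate (D : AffData X Γ E dev hol) (hinj : Function.Injective dev)
    {P : Set (F →L[ℝ] E)} (hPc : IsCompact P) (hP : Fam P) {δ : ℝ} (hδ : 0 < δ)
    (hV : ∀ γ : Γ, ∃ k ∈ P, ∀ f, δ * ‖(hol γ).linear.symm (k f)‖ ≤ ‖k f‖)
    (hI : ∀ γ : Γ, ∀ k ∈ P, ∃ l ∈ P, ∀ u, u ∈ range l ↔ (hol γ).linear.symm u ∈ range k) :
    IsHomeomorph dev ∨ ∃ k ∈ P, (∀ (x : X) (f : F), Geod dev x (k f)) ∧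
      ∀ (γ : Γ) (u : E), u ∈ range k ↔ (hol γ).linear.symm u ∈ range k := by
  by_cases hall : ∀ p ∈ closure (range dev), p ∈ range dev
  · left
    obtain ⟨x⟩ := (inferInstance : Nonempty X)
    refine homeo_of_all D.loc (x := x) fun v => Geod.ex D.loc ?_
    by_contra hv
    obtain ⟨t, -, -, h1, h2⟩ := exit_point D.loc hinj hv
    exact h1 (hall _ h2)
  right
  push Not at hall
  obtain ⟨p0, hp0, hp0'⟩ := hall
  obtain ⟨C0, hC0, hC0r, hcc⟩ := range_cc D
  obtain ⟨ρ, hρ, hB⟩ := good_of_boundary hPc D.loc.isOpenMap.isOpen_range (range_inv D)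
    (range_pd D hinj) hC0 hC0r hcc hδ hV
  obtain ⟨k, hk⟩ := hB p0 hp0 hp0'
  refine ⟨k, hk.1.1, ?_, ?_⟩
  · intro x f
    by_contra hg
    obtain ⟨t, -, -, h1, h2⟩ := exit_point D.loc hinj hg
    obtain ⟨l, hl⟩ := hB _ h2 h1
    obtain ⟨g, hg'⟩ : -(t • k f) ∈ range l := by
      rw [← parallel hP hρ hB hk hl]
      exact ⟨-(t • f), by rw [map_neg, map_smul]⟩
    obtain ⟨-, h4, -⟩ := whole hP hρ hB hl g
    apply h4
    rw [hg', add_neg_cancel_right]
    exact mem_range_self x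
  · intro γ u
    obtain ⟨l, hl, hlk⟩ := hI γ k hk.1.1
    rw [← hlk u]
    have h0 : hol γ p0 ∈ closure (range dev) ∧ hol γ p0 ∉ range dev := by
      refine ⟨map_mem_closure (hol_cont γ) hp0 fun q hq => range_inv D γ q hq, fun h => hp0' ?_⟩
      have := range_inv D γ⁻¹ _ h
      rwa [hol_inv_apply] at this
    obtain ⟨k', hk'⟩ := hB _ h0.1 h0.2
    have h1 : range k = range k' := parallel hP hρ hB hk hk'
    have h2 : range l = range k' := by
      refine (hP l hl k' hk'.1.1).resolve_right ?_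
      refine crossing hρ hk'.1 one_pos fun f _ hf => ?_
      obtain ⟨g, hg⟩ := (hlk (l f)).1 (mem_range_self f)
      obtain ⟨-, h4, -⟩ := whole hP hρ hB hk g
      apply h4
      have h5 := range_inv D γ⁻¹ _ hf
      have h6 : hol γ (p0 + k g) = hol γ p0 + l f := by
        rw [hol_add, hg]
        show hol γ p0 + (hol γ).linear ((hol γ).linear.symm (l f)) = _
        rw [LinearEquiv.apply_symm_apply]
      rw [← h6, hol_inv_apply] at h5
      exact h5
    rw [h1, h2]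

end main

end Pool.Agent.R522.Mk.Rk
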