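import Pool.Agent.R522.Mk.Rk1

/-!
Decompositions in `SL(2, ℝ)`.
-/

set_option autoImplicit false

open Set Filter Topology Metric

namespace Pool.Agent.R522.Mk.Rk

/-- the group `SL(2, ℝ)` -/
abbrev G : Type := Matrix.SpecialLinearGroup (Fin 2) ℝ

/-- diagonal matrices -/
noncomputable def dg (t : ℝ) : G := ⟨!![Real.exp t, 0; 0, Real.exp (-t)], by
  rw [Matrix.det_fin_two_of, mul_zero, sub_zero, ← Real.exp_add, add_neg_cancel, Real.exp_zero]⟩

/-- a matrix from its entries -/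
def mk2 (a b c d : ℝ) (h : a * d - b * c = 1) : G :=
  ⟨!![a, b; c, d], by rw [Matrix.det_fin_two_of]; exact h⟩

theorem det_eq (g : G) : g.1 0 0 * g.1 1 1 - g.1 0 1 * g.1 1 0 = 1 := by
  have := g.2
  rw [Matrix.det_fin_two] at this
  exact this

theorem mul_ent (g h : G) (i j : Fin 2) :
    (g * h).1 i j = g.1 i 0 * h.1 0 j + g.1 i 1 * h.1 1 j := by
  show (g.1 * h.1) i j = _
  rw [Matrix.mul_apply, Fin.sum_univ_two]

theorem inv00 (g : G) : (g⁻¹).1 0 0 = g.1 1 1 := by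
  rw [Matrix.SpecialLinearGroup.SL2_inv_expl]; rfl

theorem inv01 (g : G) : (g⁻¹).1 0 1 = -g.1 0 1 := by
  rw [Matrix.SpecialLinearGroup.SL2_inv_expl]; rfl

theorem inv10 (g : G) : (g⁻¹).1 1 0 = -g.1 1 0 := by
  rw [Matrix.SpecialLinearGroup.SL2_inv_expl]; rfl

theorem inv11 (g : G) : (g⁻¹).1 1 1 = g.1 0 0 := by
  rw [Matrix.SpecialLinearGroup.SL2_inv_expl]; rfl

theorem dg00 (t : ℝ) : (dg t).1 0 0 = Real.exp t := rfl
theorem dg01 (t : ℝ) : (dg t).1 0 1 = 0 := rfl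
theorem dg10 (t : ℝ) : (dg t).1 1 0 = 0 := rfl
theorem dg11 (t : ℝ) : (dg t).1 1 1 = Real.exp (-t) := rfl

theorem ext4 {g h : G} (h00 : g.1 0 0 = h.1 0 0) (h01 : g.1 0 1 = h.1 0 1)
    (h10 : g.1 1 0 = h.1 1 0) (h11 : g.1 1 1 = h.1 1 1) : g = h := by
  apply Subtype.ext
  ext i j
  fin_cases i <;> fin_cases j
  · exact h00
  · exact h01
  · exact h10
  · exact h11

theorem dg_neg_mul (t : ℝ) : dg (-t) * dg t = 1 := by
  apply ext4
  · rw [mul_ent, dg00, dg00, dg01, dg10, ← Real.exp_add]; simp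
  · rw [mul_ent, dg00, dg01, dg01, dg11]; simp
  · rw [mul_ent, dg10, dg10, dg00, dg11]; simp
  · rw [mul_ent, dg11, dg11, dg01, dg10, ← Real.exp_add]; simp

theorem dg_inv (t : ℝ) : (dg t)⁻¹ = dg (-t) := by
  rw [inv_eq_iff_mul_eq_one]
  have := dg_neg_mul (-t)
  rwa [neg_neg] at this

/-- matrices with entries bounded by `M` -/
def S (M : ℝ) : Set G := {g | ∀ i j, |g.1 i j| ≤ M}

theorem mem_S {M : ℝ} {g : G} (h00 : |g.1 0 0| ≤ M) (h01 : |g.1 0 1| ≤ M) (h10 : |g.1 1 0| ≤ M)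
    (h11 : |g.1 1 1| ≤ M) : g ∈ S M := by
  intro i j
  fin_cases i <;> fin_cases j
  · exact h00
  · exact h01
  · exact h10
  · exact h11

theorem inv_mem_S {M : ℝ} {g : G} (h : g ∈ S M) : g⁻¹ ∈ S M := by
  apply mem_S
  · rw [inv00]; exact h 1 1
  · rw [inv01, abs_neg]; exact h 0 1
  · rw [inv10, abs_neg]; exact h 1 0
  · rw [inv11]; exact h 0 0

theorem isCompact_S (M : ℝ) : IsCompact (S M) := by
  have hcl : IsClosed {A : Matrix (Fin 2) (Fin 2) ℝ | A.det = 1} :=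
    isClosed_eq (Continuous.matrix_det continuous_id) continuous_const
  have he : Topology.IsClosedEmbedding (Subtype.val : G → Matrix (Fin 2) (Fin 2) ℝ) :=
    hcl.isClosedEmbedding_subtypeVal
  have hK : IsCompact {A : Matrix (Fin 2) (Fin 2) ℝ | ∀ i j, A i j ∈ Set.Icc (-M) M} := by
    have h1 := isCompact_univ_pi (fun _ : Fin 2 => isCompact_univ_pi
      (fun _ : Fin 2 => isCompact_Icc (a := -M) (b := M)))
    have h2 : {A : Matrix (Fin 2) (Fin 2) ℝ | ∀ i j, A i j ∈ Set.Icc (-M) M} =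
        Set.univ.pi fun _ : Fin 2 => Set.univ.pi fun _ : Fin 2 => Set.Icc (-M) M :=
      Set.ext fun A => ⟨fun h i _ j _ => h i j, fun h i j => h i (mem_univ i) j (mem_univ j)⟩
    rw [h2]
    exact h1
  have h3 : S M = Subtype.val ⁻¹' {A : Matrix (Fin 2) (Fin 2) ℝ | ∀ i j, A i j ∈ Set.Icc (-M) M} :=
    Set.ext fun g => ⟨fun h i j => abs_le.1 (h i j), fun h i j => abs_le.2 (h i j)⟩
  rw [h3]
  exact he.isCompact_preimage hK

/-- conjugation by the diagonal group contracts upper triangular matrices -/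
theorem conj_mem {b : G} (hb : b.1 1 0 = 0) {M : ℝ} (hM : b ∈ S M) {t : ℝ} (ht : 0 ≤ t) :
    dg (-t) * b * dg t ∈ S M := by
  have e1 : Real.exp (-t) * Real.exp t = 1 := by rw [← Real.exp_add]; simp
  have e2 : Real.exp (-t) ≤ 1 := by rw [Real.exp_le_one_iff]; linarith
  have e3 : 0 < Real.exp (-t) := Real.exp_pos _
  have hM0 : 0 ≤ M := (abs_nonneg _).trans (hM 0 0)
  apply mem_S
  · have : (dg (-t) * b * dg t).1 0 0 = b.1 0 0 := by
      rw [mul_ent, mul_ent, mul_ent, dg00, dg00, dg01, dg10]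
      linear_combination b.1 0 0 * e1
    rw [this]; exact hM 0 0
  · have : (dg (-t) * b * dg t).1 0 1 = Real.exp (-t) * Real.exp (-t) * b.1 0 1 := by
      rw [mul_ent, mul_ent, mul_ent, dg00, dg01, dg01, dg11]
      ring
    rw [this, abs_mul, abs_of_pos (by positivity)]
    have h1 := hM 0 1
    have h2 : Real.exp (-t) * Real.exp (-t) ≤ 1 := by nlinarith
    calc Real.exp (-t) * Real.exp (-t) * |b.1 0 1| ≤ 1 * M := by gcongr
      _ = M := one_mul M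
  · have : (dg (-t) * b * dg t).1 1 0 = 0 := by
      rw [mul_ent, mul_ent, mul_ent, dg00, dg10, dg10, hb]
      ring
    rw [this, abs_zero]; exact hM0
  · have : (dg (-t) * b * dg t).1 1 1 = b.1 1 1 := by
      rw [mul_ent, mul_ent, mul_ent, dg11, dg10, dg01, dg11, neg_neg]
      linear_combination b.1 1 1 * e1
    rw [this]; exact hM 1 1

theorem exists_S (g : G) : ∃ M, g ∈ S M := by
  refine ⟨|g.1 0 0| + |g.1 0 1| + |g.1 1 0| + |g.1 1 1|, mem_S ?_ ?_ ?_ ?_⟩ <;>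
  linarith [abs_nonneg (g.1 0 0), abs_nonneg (g.1 0 1), abs_nonneg (g.1 1 0),
    abs_nonneg (g.1 1 1)]

theorem abs_le_one_of {x y : ℝ} (h : x ^ 2 + y ^ 2 = 1) : |x| ≤ 1 ∧ |y| ≤ 1 := by
  constructor
  · rw [abs_le]; constructor <;> nlinarith [sq_nonneg x, sq_nonneg y]
  · rw [abs_le]; constructor <;> nlinarith [sq_nonneg x, sq_nonneg y]

/-- Iwasawa decomposition -/
theorem iwa (g : G) : ∃ l ∈ S 1, ∃ b : G, b.1 1 0 = 0 ∧ g = l * b := by
  set a := g.1 0 0 with ha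
  set c := g.1 1 0 with hc
  have hpos : 0 < a ^ 2 + c ^ 2 := by
    by_contra hcon
    have h1 : a = 0 := by nlinarith [sq_nonneg a, sq_nonneg c]
    have h2 : c = 0 := by nlinarith [sq_nonneg a, sq_nonneg c]
    have h3 := det_eq g
    rw [← ha, ← hc, h1, h2] at h3
    simp at h3
  set n := Real.sqrt (a ^ 2 + c ^ 2) with hn
  have hn0 : 0 < n := Real.sqrt_pos.2 hpos
  have hn2 : n ^ 2 = a ^ 2 + c ^ 2 := Real.sq_sqrt hpos.le
  have hone : (a / n) ^ 2 + (c / n) ^ 2 = 1 := by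
    rw [div_pow, div_pow, ← add_div, hn2, div_self hpos.ne']
  let l : G := mk2 (a / n) (-(c / n)) (c / n) (a / n) (by linear_combination hone)
  have hab := abs_le_one_of hone
  refine ⟨l, mem_S hab.1 (by show |(-(c / n))| ≤ 1; rw [abs_neg]; exact hab.2) hab.2 hab.1,
    l⁻¹ * g, ?_, by group⟩
  rw [mul_ent, inv10, inv11]
  show -(c / n) * a + a / n * c = 0
  ring

theorem alg1 {A C B : ℝ} (hA0 : 0 ≤ A) (hC0 : 0 ≤ C) (hAC : A * C = 1 + B ^ 2)
    (hq : ∀ t : ℝ, 2 * t * B + t ^ 2 * (C - A) ≤ 0) : B = 0 ∧ 1 ≤ A := by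
  have hD0 : 0 ≤ A - C := by
    have h1 := hq 1
    have h2 := hq (-1)
    linarith
  have hB0 : B = 0 := by
    have h1 := hq (B / (A - C + 1))
    have hD1 : 0 < A - C + 1 := by linarith
    have h2 : 2 * (B / (A - C + 1)) * B + (B / (A - C + 1)) ^ 2 * (C - A) =
        B ^ 2 * (A - C + 2) / (A - C + 1) ^ 2 := by
      field_simp
      ring
    rw [h2] at h1
    by_contra hne
    have h3 : 0 < B ^ 2 * (A - C + 2) / (A - C + 1) ^ 2 := by
      have : 0 < B ^ 2 := by positivity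
      have : 0 < A - C + 2 := by linarith
      positivity
    linarith
  refine ⟨hB0, ?_⟩
  rw [hB0] at hAC
  by_contra hcon
  push Not at hcon
  have h3 : A * C ≤ A * A := mul_le_mul_of_nonneg_left (by linarith) hA0
  have h4 : A * A ≤ A * 1 := mul_le_mul_of_nonneg_left hcon.le hA0
  linarith

theorem alg2 {α β γ δ : ℝ} (hdet : α * δ - β * γ = 1)
    (hq : ∀ t : ℝ, 2 * t * (α * β + γ * δ) + t ^ 2 * ((β ^ 2 + δ ^ 2) - (α ^ 2 + γ ^ 2)) ≤ 0) :
    1 ≤ α ^ 2 + γ ^ 2 ∧ (α ^ 2 + γ ^ 2) * β = -γ ∧ (α ^ 2 + γ ^ 2) * δ = α := by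
  obtain ⟨h1, h2⟩ := alg1 (A := α ^ 2 + γ ^ 2) (C := β ^ 2 + δ ^ 2) (B := α * β + γ * δ)
    (by positivity) (by positivity) (by linear_combination (α * δ - β * γ + 1) * hdet) hq
  refine ⟨h2, ?_, ?_⟩
  · linear_combination α * h1 - γ * hdet
  · linear_combination γ * h1 + α * hdet

/-- a direction of maximal expansion -/
theorem exists_dir {a b c d : ℝ} (hdet : a * d - b * c = 1) : ∃ x y : ℝ, x ^ 2 + y ^ 2 = 1 ∧
    1 ≤ (a * x + b * y) ^ 2 + (c * x + d * y) ^ 2 ∧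
    ((a * x + b * y) ^ 2 + (c * x + d * y) ^ 2) * (-(a * y) + b * x) = -(c * x + d * y) ∧
    ((a * x + b * y) ^ 2 + (c * x + d * y) ^ 2) * (-(c * y) + d * x) = a * x + b * y := by
  let Ci : Set (ℝ × ℝ) := {p | p.1 ^ 2 + p.2 ^ 2 = 1}
  have hCi : IsCompact Ci := by
    refine IsCompact.of_isClosed_subset
      ((isCompact_Icc (a := (-1 : ℝ)) (b := 1)).prod (isCompact_Icc (a := (-1 : ℝ)) (b := 1)))
      (isClosed_eq (by fun_prop) continuous_const) ?_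
    intro p hp
    have h1 := abs_le_one_of hp
    exact ⟨abs_le.1 h1.1, abs_le.1 h1.2⟩
  let f : ℝ × ℝ → ℝ := fun p => (a * p.1 + b * p.2) ^ 2 + (c * p.1 + d * p.2) ^ 2
  obtain ⟨⟨x, y⟩, hxy, hmax⟩ := hCi.exists_isMaxOn ⟨((1 : ℝ), (0 : ℝ)), by simp [Ci]⟩
    (f := f) (by fun_prop)
  have hxy1 : x ^ 2 + y ^ 2 = 1 := hxy
  refine ⟨x, y, hxy1, ?_⟩
  have hhom : ∀ u v : ℝ, (a * u + b * v) ^ 2 + (c * u + d * v) ^ 2 ≤
      ((a * x + b * y) ^ 2 + (c * x + d * y) ^ 2) * (u ^ 2 + v ^ 2) := by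
    intro u v
    by_cases h0 : u ^ 2 + v ^ 2 = 0
    · have h1 : u = 0 := by
        have : u ^ 2 ≤ 0 := by linarith [sq_nonneg v]
        exact pow_eq_zero_iff (two_ne_zero) |>.1 (le_antisymm this (sq_nonneg _))
      have h2 : v = 0 := by
        have : v ^ 2 ≤ 0 := by linarith [sq_nonneg u]
        exact pow_eq_zero_iff (two_ne_zero) |>.1 (le_antisymm this (sq_nonneg _))
      rw [h1, h2]; simp
    · have hpos : 0 < u ^ 2 + v ^ 2 := lt_of_le_of_ne (by positivity) (Ne.symm h0)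
      obtain ⟨m, hm0, hm2⟩ : ∃ m : ℝ, 0 < m ∧ m ^ 2 = u ^ 2 + v ^ 2 :=
        ⟨Real.sqrt (u ^ 2 + v ^ 2), Real.sqrt_pos.2 hpos, Real.sq_sqrt hpos.le⟩
      have h1 : ((u / m, v / m) : ℝ × ℝ) ∈ Ci := by
        show (u / m) ^ 2 + (v / m) ^ 2 = 1
        rw [div_pow, div_pow, ← add_div, hm2, div_self hpos.ne']
      have h2 : (a * (u / m) + b * (v / m)) ^ 2 + (c * (u / m) + d * (v / m)) ^ 2 ≤
        (a * x + b * y) ^ 2 + (c * x + d * y) ^ 2 := hmax h1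
      have h3 : (a * (u / m) + b * (v / m)) ^ 2 + (c * (u / m) + d * (v / m)) ^ 2 =
          ((a * u + b * v) ^ 2 + (c * u + d * v) ^ 2) / m ^ 2 := by
        field_simp
      rw [h3, div_le_iff₀ (by positivity), hm2] at h2
      exact h2
  apply alg2
  · linear_combination (x ^ 2 + y ^ 2) * hdet + hxy1
  · intro t
    have h1 := hhom (x - t * y) (y + t * x)
    have h4 : (x - t * y) ^ 2 + (y + t * x) ^ 2 = 1 + t ^ 2 := by
      linear_combination (1 + t ^ 2) * hxy1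
    rw [h4] at h1
    linarith

/-- Cartan decomposition -/
theorem kak (g : G) : ∃ k ∈ S 1, ∃ l ∈ S 1, ∃ t : ℝ, 0 ≤ t ∧ g = k * dg t * l := by
  obtain ⟨x, y, hxy1, hA1, hβ', hδ'⟩ := exists_dir (det_eq g)
  set a := g.1 0 0 with ha
  set b := g.1 0 1 with hb
  set c := g.1 1 0 with hc
  set d := g.1 1 1 with hd
  obtain ⟨α, hα⟩ : ∃ α, α = a * x + b * y := ⟨_, rfl⟩
  obtain ⟨γ, hγ⟩ : ∃ γ, γ = c * x + d * y := ⟨_, rfl⟩
  obtain ⟨β, hβ⟩ : ∃ β, β = -(a * y) + b * x := ⟨_, rfl⟩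
  obtain ⟨δ, hδ⟩ : ∃ δ, δ = -(c * y) + d * x := ⟨_, rfl⟩
  rw [← hα, ← hγ] at hA1 hβ' hδ'
  rw [← hβ] at hβ'
  rw [← hδ] at hδ'
  have hA0 : 0 < α ^ 2 + γ ^ 2 := by linarith
  obtain ⟨s, hs0, hs2⟩ : ∃ s : ℝ, 0 < s ∧ s ^ 2 = α ^ 2 + γ ^ 2 :=
    ⟨Real.sqrt (α ^ 2 + γ ^ 2), Real.sqrt_pos.2 hA0, Real.sq_sqrt hA0.le⟩
  have hs1 : 1 ≤ s := by
    by_contra hcon
    push Not at hcon
    have : s ^ 2 < 1 := pow_lt_one₀ hs0.le hcon two_ne_zero
    linarith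
  have hone : (α / s) ^ 2 + (γ / s) ^ 2 = 1 := by
    rw [div_pow, div_pow, ← add_div, hs2, div_self hA0.ne']
  have hab := abs_le_one_of hone
  have hxy2 := abs_le_one_of hxy1
  refine ⟨mk2 (α / s) (-(γ / s)) (γ / s) (α / s) (by linear_combination hone),
    mem_S hab.1 (by show |(-(γ / s))| ≤ 1; rw [abs_neg]; exact hab.2) hab.2 hab.1,
    mk2 x y (-y) x (by linear_combination hxy1),
    mem_S hxy2.1 hxy2.2 (by show |-y| ≤ 1; rw [abs_neg]; exact hxy2.2) hxy2.1,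
    Real.log s, Real.log_nonneg hs1, ?_⟩
  have hes : Real.exp (Real.log s) = s := Real.exp_log hs0
  have hes' : Real.exp (-Real.log s) = s⁻¹ := by rw [Real.exp_neg, hes]
  have hβs : -(γ / s) * s⁻¹ = β := by
    have h1 : β = -γ / (α ^ 2 + γ ^ 2) := by rw [eq_div_iff hA0.ne', mul_comm]; exact hβ'
    rw [h1, ← hs2]; field_simp
  have hδs : α / s * s⁻¹ = δ := by
    have h1 : δ = α / (α ^ 2 + γ ^ 2) := by rw [eq_div_iff hA0.ne', mul_comm]; exact hδ'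
    rw [h1, ← hs2]; field_simp
  have hαs : α / s * s = α := div_mul_cancel₀ _ hs0.ne'
  have hγs : γ / s * s = γ := div_mul_cancel₀ _ hs0.ne'
  apply ext4
  · rw [mul_ent, mul_ent, mul_ent, dg00, dg10, dg01, dg11, hes, hes']
    show a = (α / s * s + -(γ / s) * 0) * x + (α / s * 0 + -(γ / s) * s⁻¹) * -y
    rw [hαs, hβs, hα, hβ]
    linear_combination -a * hxy1
  · rw [mul_ent, mul_ent, mul_ent, dg00, dg10, dg01, dg11, hes, hes']
    show b = (α / s * s + -(γ / s) * 0) * y + (α / s * 0 + -(γ / s) * s⁻¹) * x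
    rw [hαs, hβs, hα, hβ]
    linear_combination -b * hxy1
  · rw [mul_ent, mul_ent, mul_ent, dg00, dg10, dg01, dg11, hes, hes']
    show c = (γ / s * s + α / s * 0) * x + (γ / s * 0 + α / s * s⁻¹) * -y
    rw [hγs, hδs, hγ, hδ]
    linear_combination -c * hxy1
  · rw [mul_ent, mul_ent, mul_ent, dg00, dg10, dg01, dg11, hes, hes']
    show d = (γ / s * s + α / s * 0) * y + (γ / s * 0 + α / s * s⁻¹) * x
    rw [hγs, hδs, hγ, hδ]
    linear_combination -d * hxy1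

end Pool.Agent.R522.Mk.Rk
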