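import Pool.Agent.R522.Mk.Rk2
import Pool.Agent.Y449.MS.All

/-!
Linear representations of `SL(2, ℝ)`: the plates are the translates of the space of vectors of
nonnegative weight.
-/

set_option autoImplicit false

open Set Filter Topology Metric
open Pool.Agent.W689.Mk Pool.Agent.TH94.MK

namespace Pool.Agent.R522.Mk.Rk

section rep
variable {E : Type} [NormedAddCommGroup E] [NormedSpace ℝ E] [FiniteDimensional ℝ E]
  (ρ : G →* (E ≃ₗ[ℝ] E))

theorem rho_mul (g h : G) (v : E) : ρ (g * h) v = ρ g (ρ h v) := by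
  rw [map_mul]; rfl

theorem rho_inv_apply (g : G) (v : E) : ρ g⁻¹ (ρ g v) = v := by
  rw [← rho_mul, inv_mul_cancel, map_one]; rfl

theorem rho_apply_inv (g : G) (v : E) : ρ g (ρ g⁻¹ v) = v := by
  rw [← rho_mul, mul_inv_cancel, map_one]; rfl

theorem rho_symm (g : G) (v : E) : (ρ g).symm v = ρ g⁻¹ v := by
  rw [LinearEquiv.symm_apply_eq, rho_apply_inv]

/-- the vectors with bounded orbit under the contracting half of the diagonal group -/
def up : Submodule ℝ E where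
  carrier := {v | ∃ C : ℝ, ∀ t : ℝ, 0 ≤ t → ‖ρ (dg (-t)) v‖ ≤ C}
  add_mem' := by
    rintro v w ⟨C, hC⟩ ⟨C', hC'⟩
    exact ⟨C + C', fun t ht => by
      rw [map_add]; exact (norm_add_le _ _).trans (add_le_add (hC t ht) (hC' t ht))⟩
  zero_mem' := ⟨0, fun t _ => by rw [map_zero, norm_zero]⟩
  smul_mem' := by
    rintro c v ⟨C, hC⟩
    exact ⟨‖c‖ * C, fun t ht => by
      rw [map_smul, norm_smul]; exact mul_le_mul_of_nonneg_left (hC t ht) (norm_nonneg _)⟩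

/-- the operators -/
noncomputable def R (g : G) : E →L[ℝ] E := LinearMap.toContinuousLinearMap (ρ g : E →ₗ[ℝ] E)

theorem R_cont (hc : ∀ v, Continuous fun g : G => ρ g v) : Continuous (R ρ) :=
  continuous_clm_apply.2 hc

theorem bdd (hc : ∀ v, Continuous fun g : G => ρ g v) (M : ℝ) :
    ∃ C, 0 < C ∧ ∀ g ∈ S M, ∀ v, ‖ρ g v‖ ≤ C * ‖v‖ := by
  obtain ⟨C, hC⟩ := (isCompact_S M).exists_bound_of_continuousOn (R_cont ρ hc).continuousOn
  refine ⟨|C| + 1, by positivity, fun g hg v => ?_⟩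
  calc ‖ρ g v‖ = ‖R ρ g v‖ := rfl
    _ ≤ ‖R ρ g‖ * ‖v‖ := (R ρ g).le_opNorm v
    _ ≤ (|C| + 1) * ‖v‖ := by
        gcongr
        exact (hC g hg).trans (by linarith [le_abs_self C])

theorem dg_mul_neg (t : ℝ) : dg t * dg (-t) = 1 := by
  have := dg_neg_mul (-t)
  rwa [neg_neg] at this

theorem up_inv (hc : ∀ v, Continuous fun g : G => ρ g v) {b : G} (hb : b.1 1 0 = 0) {v : E}
    (hv : v ∈ up ρ) : ρ b v ∈ up ρ := by
  obtain ⟨M, hM⟩ := exists_S b
  obtain ⟨C0, hC0, h0⟩ := bdd ρ hc M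
  obtain ⟨C, hC⟩ := hv
  refine ⟨C0 * C, fun t ht => ?_⟩
  have e : ρ (dg (-t)) (ρ b v) = ρ (dg (-t) * b * dg t) (ρ (dg (-t)) v) := by
    rw [← rho_mul, ← rho_mul, mul_assoc (dg (-t) * b), dg_mul_neg, mul_one]
  rw [e]
  exact (h0 _ (conj_mem hb hM ht) _).trans (mul_le_mul_of_nonneg_left (hC t ht) hC0.le)

/-- the Weyl element -/
def wy : G := mk2 0 (-1) 1 0 (by norm_num)

theorem dg_w (t : ℝ) : dg (-t) * wy⁻¹ = wy⁻¹ * dg t := by
  have w00 : (wy⁻¹).1 0 0 = 0 := by rw [inv00]; rfl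
  have w01 : (wy⁻¹).1 0 1 = 1 := by rw [inv01]; show -(-1 : ℝ) = 1; norm_num
  have w10 : (wy⁻¹).1 1 0 = -1 := by rw [inv10]; rfl
  have w11 : (wy⁻¹).1 1 1 = 0 := by rw [inv11]; rfl
  apply ext4
  · rw [mul_ent, mul_ent, dg00, dg01, dg00, dg10, w00, w01, w10]; ring
  · rw [mul_ent, mul_ent, dg00, dg01, dg01, dg11, w00, w01, w11]; ring
  · rw [mul_ent, mul_ent, dg10, dg11, dg00, dg10, w00, w10, w11, neg_neg]; ring
  · rw [mul_ent, mul_ent, dg10, dg11, dg01, dg11, w01, w10, w11]; ring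

theorem down_up (hc : ∀ v, Continuous fun g : G => ρ g v) {v : E}
    (hv : ∃ C : ℝ, ∀ t : ℝ, 0 ≤ t → ‖ρ (dg t) v‖ ≤ C) : ρ wy⁻¹ v ∈ up ρ := by
  obtain ⟨M, hM⟩ := exists_S wy⁻¹
  obtain ⟨C0, hC0, h0⟩ := bdd ρ hc M
  obtain ⟨C, hC⟩ := hv
  refine ⟨C0 * C, fun t ht => ?_⟩
  rw [← rho_mul, dg_w, rho_mul]
  exact (h0 _ hM _).trans (mul_le_mul_of_nonneg_left (hC t ht) hC0.le)

/-- every vector is a sum of a vector of nonnegative and a vector of nonpositive weight -/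
def Dec : Prop := ∀ e : E, ∃ v1 v2, e = v1 + v2 ∧ v1 ∈ up ρ ∧
  ∃ C : ℝ, ∀ t : ℝ, 0 ≤ t → ‖ρ (dg t) v2‖ ≤ C

theorem inv_upper {b : G} (hb : b.1 1 0 = 0) : (b⁻¹).1 1 0 = 0 := by
  rw [inv10, hb, neg_zero]

theorem trans0 (hc : ∀ v, Continuous fun g : G => ρ g v) (hD : Dec ρ) {m : G}
    (hm : m.1 1 0 ≠ 0) (e : E) : ∃ f ∈ up ρ, ∃ f' ∈ up ρ, f - ρ m f' = e := by
  let b1 : G := mk2 1 (m.1 0 0 / m.1 1 0) 0 1 (by ring)
  have hb1 : b1.1 1 0 = 0 := rfl
  let b2 : G := wy⁻¹ * b1⁻¹ * m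
  have hb2 : b2.1 1 0 = 0 := by
    have w10 : (wy⁻¹).1 1 0 = -1 := by rw [inv10]; rfl
    have w11 : (wy⁻¹).1 1 1 = 0 := by rw [inv11]; rfl
    show (wy⁻¹ * b1⁻¹ * m).1 1 0 = 0
    rw [mul_ent, mul_ent, mul_ent, w10, w11, inv00, inv01, inv10, inv11]
    show (-1 * (1 : ℝ) + 0 * (-0)) * m.1 0 0 +
      (-1 * (-(m.1 0 0 / m.1 1 0)) + 0 * (1 : ℝ)) * m.1 1 0 = 0
    field_simp
    ring
  have hmb : m = b1 * wy * b2 := by
    show m = b1 * wy * (wy⁻¹ * b1⁻¹ * m)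
    group
  obtain ⟨v1, v2, he, h1, h2⟩ := hD (ρ b1⁻¹ e)
  refine ⟨ρ b1 v1, up_inv ρ hc hb1 h1, -(ρ b2⁻¹ (ρ wy⁻¹ v2)),
    (up ρ).neg_mem (up_inv ρ hc (inv_upper hb2) (down_up ρ hc h2)), ?_⟩
  rw [map_neg, sub_neg_eq_add]
  have h3 : ρ m (ρ b2⁻¹ (ρ wy⁻¹ v2)) = ρ b1 v2 := by
    conv_lhs => rw [hmb]
    rw [rho_mul, rho_mul, rho_apply_inv, rho_apply_inv]
  rw [h3, ← map_add, ← he, rho_apply_inv]

/-- the plates -/
noncomputable def plate (g : G) : up ρ →L[ℝ] E := (R ρ g).comp (up ρ).subtypeL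

theorem plate_apply (g : G) (f : up ρ) : plate ρ g f = ρ g f := rfl

theorem mem_range_mul (g k : G) (u : E) :
    u ∈ range (plate ρ (g * k)) ↔ (ρ g).symm u ∈ range (plate ρ k) := by
  rw [rho_symm]
  constructor
  · rintro ⟨f, rfl⟩
    refine ⟨f, ?_⟩
    rw [plate_apply, plate_apply, rho_mul, rho_inv_apply]
  · rintro ⟨f, hf⟩
    refine ⟨f, ?_⟩
    rw [plate_apply, rho_mul, ← plate_apply, hf, rho_apply_inv]

theorem range_mul_upper (hc : ∀ v, Continuous fun g : G => ρ g v) (g : G) {b : G}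
    (hb : b.1 1 0 = 0) : range (plate ρ (g * b)) = range (plate ρ g) := by
  apply Subset.antisymm
  · rintro _ ⟨f, rfl⟩
    refine ⟨⟨ρ b f, up_inv ρ hc hb f.2⟩, ?_⟩
    rw [plate_apply, plate_apply, rho_mul]
  · rintro _ ⟨f, rfl⟩
    refine ⟨⟨ρ b⁻¹ f, up_inv ρ hc (inv_upper hb) f.2⟩, ?_⟩
    rw [plate_apply, plate_apply, rho_mul, rho_apply_inv]

theorem trans1 (hc : ∀ v, Continuous fun g : G => ρ g v) (hD : Dec ρ) {g h : G}
    (hm : (g⁻¹ * h).1 1 0 ≠ 0) : Trans (plate ρ g) (plate ρ h) := by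
  intro e
  obtain ⟨f, hf, f', hf', he⟩ := trans0 ρ hc hD hm (ρ g⁻¹ e)
  refine ⟨⟨f, hf⟩, ⟨f', hf'⟩, ?_⟩
  rw [plate_apply, plate_apply]
  have h1 := congrArg (ρ g) he
  rw [map_sub, rho_apply_inv, ← rho_mul, mul_inv_cancel_left] at h1
  exact h1

theorem fam_all (hc : ∀ v, Continuous fun g : G => ρ g v) (hD : Dec ρ) (g h : G) :
    range (plate ρ g) = range (plate ρ h) ∨ Trans (plate ρ g) (plate ρ h) := by
  by_cases hm : (g⁻¹ * h).1 1 0 = 0
  · left
    have h1 : h = g * (g⁻¹ * h) := by group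
    rw [h1, range_mul_upper ρ hc g hm]
  · right
    exact trans1 ρ hc hD hm

theorem lower (hc : ∀ v, Continuous fun g : G => ρ g v) : ∃ δ : ℝ, 0 < δ ∧ ∀ g : G, ∃ k ∈ S 1,
    ∀ f, δ * ‖(ρ g).symm (plate ρ k f)‖ ≤ ‖plate ρ k f‖ := by
  haveI : CompleteSpace (up ρ) := FiniteDimensional.complete ℝ (up ρ)
  obtain ⟨C1, hC1, h1⟩ := bdd ρ hc 1
  obtain ⟨C2, hC2⟩ := banach_steinhaus (ι := {t : ℝ // 0 ≤ t})
    (g := fun t => plate ρ (dg (-t.1))) (fun f => by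
      obtain ⟨C, hC⟩ := f.2
      exact ⟨C, fun t => hC t.1 t.2⟩)
  refine ⟨1 / (C1 * (|C2| + 1) * C1), by positivity, fun g => ?_⟩
  obtain ⟨k, hk, l, hl, t, ht, hg⟩ := kak g
  refine ⟨k, hk, fun f => ?_⟩
  have e : (ρ g).symm (plate ρ k f) = ρ l⁻¹ (ρ (dg (-t)) f) := by
    rw [rho_symm, plate_apply, ← rho_mul, ← rho_mul]
    congr 2
    rw [hg, mul_inv_rev, mul_inv_rev, dg_inv]
    group
  rw [e, one_div, inv_mul_le_iff₀ (by positivity)]
  calc ‖ρ l⁻¹ (ρ (dg (-t)) f)‖ ≤ C1 * ‖ρ (dg (-t)) f‖ := h1 _ (inv_mem_S hl) _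
    _ = C1 * ‖plate ρ (dg (-t)) f‖ := rfl
    _ ≤ C1 * ((|C2| + 1) * ‖f‖) := by
        gcongr
        refine ((plate ρ (dg (-t))).le_opNorm f).trans ?_
        gcongr
        exact (hC2 ⟨t, ht⟩).trans (by linarith [le_abs_self C2])
    _ = C1 * ((|C2| + 1) * ‖ρ k⁻¹ (ρ k f)‖) := by rw [rho_inv_apply]; rfl
    _ ≤ C1 * ((|C2| + 1) * (C1 * ‖ρ k f‖)) := by
        gcongr
        exact h1 _ (inv_mem_S hk) _
    _ = C1 * (|C2| + 1) * C1 * ‖plate ρ k f‖ := by rw [plate_apply]; ring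

end rep

section weights
variable {E : Type} [NormedAddCommGroup E] [NormedSpace ℝ E] [FiniteDimensional ℝ E]
  (ρ : G →* (E ≃ₗ[ℝ] E))

theorem dec_of_weights (hw : Submodule.span ℝ
    {v : E | ∃ c : ℝ, ∀ t : ℝ, ρ (dg t) v = Real.exp (c * t) • v} = ⊤) : Dec ρ := by
  intro e
  have he : e ∈ Submodule.span ℝ
      {v : E | ∃ c : ℝ, ∀ t : ℝ, ρ (dg t) v = Real.exp (c * t) • v} := by
    rw [hw]; exact Submodule.mem_top
  induction he using Submodule.span_induction with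
  | mem v hv =>
    obtain ⟨c, hc⟩ := hv
    rcases le_total 0 c with h | h
    · refine ⟨v, 0, (add_zero v).symm, ⟨‖v‖, fun t ht => ?_⟩, 0, fun t _ => ?_⟩
      · rw [hc, norm_smul, Real.norm_eq_abs, abs_of_pos (Real.exp_pos _)]
        have h1 : Real.exp (c * -t) ≤ 1 := by
          rw [Real.exp_le_one_iff]; nlinarith
        calc Real.exp (c * -t) * ‖v‖ ≤ 1 * ‖v‖ := by gcongr
          _ = ‖v‖ := one_mul _
      · rw [map_zero, norm_zero]
    · refine ⟨0, v, (zero_add v).symm, (up ρ).zero_mem, ‖v‖, fun t ht => ?_⟩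
      rw [hc, norm_smul, Real.norm_eq_abs, abs_of_pos (Real.exp_pos _)]
      have h1 : Real.exp (c * t) ≤ 1 := by
        rw [Real.exp_le_one_iff]; nlinarith
      calc Real.exp (c * t) * ‖v‖ ≤ 1 * ‖v‖ := by gcongr
        _ = ‖v‖ := one_mul _
  | zero => exact ⟨0, 0, (add_zero 0).symm, (up ρ).zero_mem, 0, fun t _ => by
      rw [map_zero, norm_zero]⟩
  | add x y _ _ hx hy =>
    obtain ⟨v1, v2, h1, h2, C, h3⟩ := hx
    obtain ⟨w1, w2, k1, k2, C', k3⟩ := hy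
    refine ⟨v1 + w1, v2 + w2, ?_, (up ρ).add_mem h2 k2, C + C', fun t ht => ?_⟩
    · rw [h1, k1]; abel
    · rw [map_add]
      exact (norm_add_le _ _).trans (add_le_add (h3 t ht) (k3 t ht))
  | smul a x _ hx =>
    obtain ⟨v1, v2, h1, h2, C, h3⟩ := hx
    refine ⟨a • v1, a • v2, ?_, (up ρ).smul_mem a h2, ‖a‖ * C, fun t ht => ?_⟩
    · rw [h1, smul_add]
    · rw [map_smul, norm_smul]
      exact mul_le_mul_of_nonneg_left (h3 t ht) (norm_nonneg _)

end weights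

section solv

/-- upper triangular matrices -/
def Bor : Subgroup G where
  carrier := {g | g.1 1 0 = 0}
  mul_mem' := by
    intro g h hg hh
    show (g * h).1 1 0 = 0
    rw [mul_ent]
    have h1 : g.1 1 0 = 0 := hg
    have h2 : h.1 1 0 = 0 := hh
    rw [h1, h2]; ring
  one_mem' := rfl
  inv_mem' := fun h => inv_upper h

/-- the diagonal character -/
def chi : Bor →* ℝ where
  toFun g := g.1.1 0 0
  map_one' := rfl
  map_mul' := by
    intro g h
    show (g.1 * h.1).1 0 0 = _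
    have h2 : h.1.1 1 0 = 0 := h.2
    rw [mul_ent, h2]; ring

theorem bor_solvable : Group.IsSolvable Bor := by
  haveI : Group.IsSolvable (MonoidHom.toHomUnits chi).ker := by
    apply Group.isSolvable_of_comm
    rintro ⟨⟨g, hg⟩, hg1⟩ ⟨⟨h, hh⟩, hh1⟩
    have g10 : g.1 1 0 = 0 := hg
    have h10 : h.1 1 0 = 0 := hh
    have g00 : g.1 0 0 = 1 := congrArg Units.val hg1
    have h00 : h.1 0 0 = 1 := congrArg Units.val hh1
    have g11 : g.1 1 1 = 1 := by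
      have := det_eq g
      rw [g10, g00] at this
      linarith
    have h11 : h.1 1 1 = 1 := by
      have := det_eq h
      rw [h10, h00] at this
      linarith
    apply Subtype.ext
    apply Subtype.ext
    show g * h = h * g
    apply ext4
    · rw [mul_ent, mul_ent, g10, h10, g00, h00]; ring
    · rw [mul_ent, mul_ent, g00, h00, g11, h11]; ring
    · rw [mul_ent, mul_ent, g10, h10]; ring
    · rw [mul_ent, mul_ent, g10, h10, g11, h11]; ring
  exact Group.isSolvable_of_ker_le_range (MonoidHom.toHomUnits chi).ker.subtype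
    (MonoidHom.toHomUnits chi) (by rw [Subgroup.range_subtype])

end solv

section main
variable {E Γ X : Type} [NormedAddCommGroup E] [NormedSpace ℝ E] [FiniteDimensional ℝ E]
  [Group Γ] {hol : Γ →* (E ≃ᵃ[ℝ] E)}
  [TopologicalSpace X] [T2Space X] [SecondCountableTopology X] [ConnectedSpace X] [MulAction Γ X]
  {dev : X → E}

theorem sl2_complete (D : AffData X Γ E dev hol) (hinj : Function.Injective dev)
    (ρ : G →* (E ≃ₗ[ℝ] E)) (hc : ∀ v, Continuous fun g : G => ρ g v) (hD : Dec ρ)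
    (hρ : ∀ γ : Γ, ∃ g : G, (hol γ).linear = ρ g) : IsHomeomorph dev := by
  obtain ⟨δ, hδ, hlow⟩ := lower ρ hc
  have hPc : IsCompact ((fun g => plate ρ g) '' S 1) := by
    refine (isCompact_S 1).image ?_
    exact ((ContinuousLinearMap.compL ℝ (up ρ) E E).flip (up ρ).subtypeL).continuous.comp
      (R_cont ρ hc)
  have hfix := fixed_plate D hinj hPc
    (by
      rintro _ ⟨g, -, rfl⟩ _ ⟨h, -, rfl⟩
      exact fam_all ρ hc hD g h) hδ
    (by
      intro γ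
      obtain ⟨g, hg⟩ := hρ γ
      obtain ⟨k, hk, h⟩ := hlow g
      refine ⟨plate ρ k, ⟨k, hk, rfl⟩, fun f => ?_⟩
      rw [hg]; exact h f)
    (by
      rintro γ _ ⟨k, hk, rfl⟩
      obtain ⟨g, hg⟩ := hρ γ
      obtain ⟨l, hl, b, hb, hlb⟩ := iwa (g * k)
      refine ⟨plate ρ l, ⟨l, hl, rfl⟩, fun u => ?_⟩
      show u ∈ range (plate ρ l) ↔ _ ∈ range (plate ρ k)
      rw [hg, ← mem_range_mul, hlb, range_mul_upper ρ hc l hb])
  rcases hfix with h | ⟨_, ⟨k, hk, rfl⟩, hcomp, hfix⟩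
  · exact h
  choose g hg using hρ
  by_cases hB : ∀ γ, (k⁻¹ * g γ * k).1 1 0 = 0
  · -- solvable holonomy
    let ψ : Bor →* (E ≃ₗ[ℝ] E) := ρ.comp ((MulAut.conj k).toMonoidHom.comp Bor.subtype)
    have hle : (⊤ : Subgroup Γ).map (AffineEquiv.linearHom.comp hol) ≤ ψ.range := by
      rintro _ ⟨γ, -, rfl⟩
      refine ⟨⟨k⁻¹ * g γ * k, hB γ⟩, ?_⟩
      show ρ (k * (k⁻¹ * g γ * k) * k⁻¹) = (hol γ).linear
      rw [hg γ]
      congr 1
      group
    haveI := bor_solvable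
    haveI : Group.IsSolvable ψ.range :=
      Group.isSolvable_of_surjective (f := ψ.rangeRestrict) ψ.rangeRestrict_surjective
    have hs : Group.IsSolvable ((⊤ : Subgroup Γ).map (AffineEquiv.linearHom.comp hol)) :=
      Group.isSolvable_of_isSolvable_injective (f := Subgroup.inclusion hle)
        (Subgroup.inclusion_injective hle)
    exact Pool.Agent.Y449.MS.Wrap.main Pool.Agent.Y449.MS.All.finv X Γ E dev hol D hinj ⊤
      inferInstance hs
  · -- all directions are complete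
    push Not at hB
    obtain ⟨γ, hγ⟩ := hB
    obtain ⟨x⟩ := (inferInstance : Nonempty X)
    refine homeo_of_all D.loc (x := x) fun v => Geod.ex D.loc ?_
    have ht : Trans (plate ρ k) (plate ρ (g γ * k)) := by
      apply trans1 ρ hc hD
      rw [← mul_assoc]; exact hγ
    obtain ⟨f, f', hf⟩ := ht v
    obtain ⟨f2, hf2⟩ : plate ρ (g γ * k) f' ∈ range (plate ρ k) := by
      have h1 := (hfix γ (plate ρ (g γ * k) f')).2
      apply h1
      rw [hg γ, ← mem_range_mul]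
      exact mem_range_self f'
    have h2 := hcomp x (f - f2)
    rw [map_sub] at h2
    change Geod dev x (plate ρ k f - plate ρ k f2) at h2
    rw [hf2, hf] at h2
    exact h2

end main

end Pool.Agent.R522.Mk.Rk
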