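import Pool.Agent.R774.MK4

/-!
Closed affine manifolds whose linear holonomy preserves a splitting `V ⊕ W`, with complete
directions `V` and with holonomy on `W` semilinear over a division algebra `K` and bounded from
below on `K`-hyperplanes. The slice `W ∩ Ω` of the developing image `Ω` is a domain with boundary
consisting of parallel `K`-hyperplanes, although the group does not act properly on it.
-/

set_option autoImplicit false

open Set Filter Topology Metric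
open Pool.Agent.W689.Mk Pool.Agent.TH94.MK Pool.Agent.R774.MK

namespace Pool.Agent.R522.Mk

section slice
variable {K E W Γ : Type} [NormedDivisionRing K] [NormedAlgebra ℝ K] [FiniteDimensional ℝ K]
  [NormedAddCommGroup E] [NormedSpace ℝ E] [FiniteDimensional ℝ E]
  [NormedAddCommGroup W] [NormedSpace ℝ W] [Module K W] [IsScalarTower ℝ K W] [IsBoundedSMul K W]
  [FiniteDimensional ℝ W] [Group Γ] {hol : Γ →* (E ≃ᵃ[ℝ] E)}

/-- the slice of `Ω` through the point `e` -/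
def slice (Ω : Set E) (e : E) (ι : W →L[ℝ] E) : Set W := {w | e + ι w ∈ Ω}

/-- boundary points of slices lie on discs of `K`-hyperplanes outside of `Ω` -/
theorem good_of_slice {Ω : Set E} (hΩ : IsOpen Ω)
    (hinv : ∀ (γ : Γ), ∀ q ∈ Ω, hol γ q ∈ Ω)
    (hpd : ∀ C : Set E, IsCompact C → C ⊆ Ω → {γ : Γ | ∃ c ∈ C, hol γ c ∈ C}.Finite)
    {C0 : Set E} (hC0 : IsCompact C0) (hC0Ω : C0 ⊆ Ω)
    (hcc : ∀ q ∈ Ω, ∃ γ : Γ, ∃ c ∈ C0, hol γ c = q) {δ : ℝ} (hδ : 0 < δ)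
    (ι : W →L[ℝ] E) (B : Γ → W ≃ₗ[ℝ] W) (hι : ∀ γ w, (hol γ).linear (ι w) = ι (B γ w))
    (hsemi : ∀ γ : Γ, ∃ σ : K ≃+* K, Semi σ (B γ))
    (hV : ∀ γ : Γ, ∃ f : W →L[ℝ] K, KLin f ∧ f ≠ 0 ∧ ∀ v, f v = 0 → δ * ‖v‖ ≤ ‖B γ v‖) :
    ∃ ρ > 0, ∀ e : E, ∀ p ∈ closure (slice Ω e ι), p ∉ slice Ω e ι →
      ∃ ψ : W →L[ℝ] K, Good K (slice Ω e ι) ρ p ψ := by
  have : ProperSpace E := FiniteDimensional.proper_real E
  have : ProperSpace W := FiniteDimensional.proper_real W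
  obtain ⟨r0, hr0, hrΩ⟩ := hC0.exists_cthickening_subset_open hΩ hC0Ω
  obtain ⟨r, hr, hrι⟩ : ∃ r : ℝ, 0 < r ∧ ∀ w : W, ‖w‖ ≤ r → ‖ι w‖ ≤ r0 := by
    refine ⟨r0 / (‖ι‖ + 1), by positivity, fun w hw => ?_⟩
    have h0 : 0 ≤ ‖ι‖ := norm_nonneg _
    rw [le_div_iff₀ (by positivity)] at hw
    have h1 := ι.le_opNorm w
    have h2 : 0 ≤ ‖w‖ := norm_nonneg _
    nlinarith
  refine ⟨δ * r, by positivity, fun e p hp hpΩ => ?_⟩
  let j : W → E := fun w => e + ι w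
  have hj : Continuous j := continuous_const.add ι.continuous
  have hΩ' : IsOpen (slice Ω e ι) := hΩ.preimage hj
  obtain ⟨a, haΩ, ha⟩ := mem_closure_iff_seq_limit.1 hp
  choose γ c hc hγc using fun k => hcc (j (a k)) (haΩ k)
  have hC1 : IsCompact (cthickening r0 C0) := hC0.cthickening
  have hin : ∀ k (w : W), ‖w‖ ≤ r → c k + ι w ∈ cthickening r0 C0 := by
    intro k w hw
    refine mem_cthickening_of_dist_le _ _ _ _ (hc k) ?_
    rw [dist_eq_norm, add_sub_cancel_left]; exact hrι w hw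
  have hmove : ∀ k (w : W), hol (γ k) (c k + ι w) = j (a k + B (γ k) w) := by
    intro k w
    rw [hol_add, hγc k]
    show e + ι (a k) + (hol (γ k)).linear (ι w) = e + ι (a k + B (γ k) w)
    rw [hι, map_add, add_assoc]
  -- first claim
  have claim1 : ∀ q ∈ slice Ω e ι, ∃ ε > 0, ∀ᶠ k in atTop, ∀ w : W, ‖w‖ ≤ r →
      a k + B (γ k) w ∉ closedBall q ε := by
    intro q hq
    obtain ⟨ε, hε, hεΩ⟩ := Metric.nhds_basis_closedBall.mem_iff.1 (hΩ'.mem_nhds hq)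
    refine ⟨ε, hε, ?_⟩
    have hC : IsCompact (cthickening r0 C0 ∪ j '' closedBall q ε) :=
      hC1.union ((isCompact_closedBall _ _).image hj)
    have hCΩ : cthickening r0 C0 ∪ j '' closedBall q ε ⊆ Ω :=
      union_subset hrΩ (image_subset_iff.2 hεΩ)
    have hF := hpd _ hC hCΩ
    set F := {γ : Γ | ∃ c ∈ cthickening r0 C0 ∪ j '' closedBall q ε,
      hol γ c ∈ cthickening r0 C0 ∪ j '' closedBall q ε} with hFdef
    have hT : IsCompact (⋃ g ∈ F, hol g '' C0) :=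
      hF.isCompact_biUnion fun g _ => hC0.image (hol_cont g)
    have hpT : j p ∉ ⋃ g ∈ F, hol g '' C0 := by
      intro hcon
      obtain ⟨g, _, hcon⟩ := mem_iUnion₂.1 hcon
      obtain ⟨c', hc', he⟩ := hcon
      apply hpΩ
      show j p ∈ Ω
      rw [← he]
      exact hinv g c' (hC0Ω hc')
    have hev : ∀ᶠ k in atTop, j (a k) ∉ ⋃ g ∈ F, hol g '' C0 :=
      ((hj.tendsto p).comp ha).eventually (hT.isClosed.isOpen_compl.mem_nhds hpT)
    filter_upwards [hev] with k hk w hw hcon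
    apply hk
    refine mem_iUnion₂.2 ⟨γ k, ?_, c k, hc k, hγc k⟩
    refine ⟨c k + ι w, Or.inl (hin k w hw), Or.inr ?_⟩
    rw [hmove]; exact mem_image_of_mem _ hcon
  -- a nonzero vector
  obtain ⟨f0, -, hf0, -⟩ := hV 1
  obtain ⟨v0, hv0⟩ : ∃ v0 : W, v0 ≠ 0 := by
    by_contra hcon
    push Not at hcon
    apply hf0
    ext v
    rw [hcon v, map_zero, map_zero]
  -- functionals
  have hex : ∀ k, ∃ g : W →L[ℝ] K, KLin g ∧ ‖g‖ = 1 ∧
      ∀ w, g w = 0 → ‖w‖ ≤ δ * r → ∃ v, ‖v‖ ≤ r ∧ B (γ k) v = w := by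
    intro k
    obtain ⟨σ, hσ⟩ := hsemi (γ k)
    obtain ⟨f, hf1, hf2, hf3⟩ := hV (γ k)
    obtain ⟨g, hg1, hg2, hg3⟩ := hσ.push hv0 hf1 hf2
    refine ⟨g, hg1, hg2, fun w hw hwr => ⟨(B (γ k)).symm w, ?_, by simp⟩⟩
    have h1 : f ((B (γ k)).symm w) = 0 := hg3 _ (by simpa using hw)
    have h2 := hf3 _ h1
    rw [LinearEquiv.apply_symm_apply] at h2
    have h3 := h2.trans hwr
    exact le_of_mul_le_mul_left h3 hδ
  choose g hg1 hg2 hg3 using hex
  obtain ⟨ψ, hψ, φ, hφ, hφt⟩ := (isCompact_sphere (0 : W →L[ℝ] K) 1).tendsto_subseq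
    (x := g) (fun k => by rw [mem_sphere_zero_iff_norm]; exact hg2 k)
  have hφa := hφ.tendsto_atTop
  have hψ1 : ‖ψ‖ = 1 := by rwa [mem_sphere_zero_iff_norm] at hψ
  have hψ0 : ψ ≠ 0 := by
    intro h0
    rw [h0, norm_zero] at hψ1
    exact zero_ne_one hψ1
  refine ⟨ψ, ⟨KLin.lim (fun j => hg1 (φ j)) hφt, hψ0, fun k => a (φ k), fun k => g (φ k),
    ha.comp hφa, hφt, fun j => hg1 _, ?_⟩, ?_⟩
  · intro i w hw hwρ
    obtain ⟨v, hv, hve⟩ := hg3 (φ i) w hw hwρ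
    show e + ι (a (φ i) + w) ∈ Ω
    rw [← hve]
    have h9 := hinv (γ (φ i)) _ (hrΩ (hin (φ i) v hv))
    rw [hmove] at h9
    exact h9
  · intro w hw hwρ hq
    obtain ⟨ε, hε, hev⟩ := claim1 _ hq
    obtain ⟨U, hU, hU0⟩ := ker_approx (fun j => hg1 (φ j)) hφt hψ0 hw
    have h1 : Tendsto (fun k => a (φ k) + U k) atTop (𝓝 (p + w)) := (ha.comp hφa).add hU
    have h2 : ∀ᶠ j in atTop, ‖U j‖ < δ * r := hU.norm.eventually_lt_const hwρ
    obtain ⟨k, hk1, hk2, hk3, hk4⟩ := ((h1.eventually (closedBall_mem_nhds _ hε)).and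
      ((hφa.eventually hev).and (hU0.and h2))).exists
    obtain ⟨v, hv, hve⟩ := hg3 (φ k) (U k) hk3 hk4.le
    refine hk2 v hv ?_
    rw [hve]; exact hk1

end slice

section main
variable {K E W Γ X : Type} [NormedDivisionRing K] [NormedAlgebra ℝ K] [FiniteDimensional ℝ K]
  [NormedAddCommGroup E] [NormedSpace ℝ E] [FiniteDimensional ℝ E]
  [NormedAddCommGroup W] [NormedSpace ℝ W] [Module K W] [IsScalarTower ℝ K W] [IsBoundedSMul K W]
  [FiniteDimensional ℝ W] [Group Γ] {hol : Γ →* (E ≃ᵃ[ℝ] E)}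
  [TopologicalSpace X] [T2Space X] [SecondCountableTopology X] [ConnectedSpace X] [MulAction Γ X]
  {dev : X → E}

/-- the developing image is saturated in the complete directions -/
theorem slice_iff (D : AffData X Γ E dev hol) (ι : W →L[ℝ] E) (π : E →L[ℝ] W)
    (hπι : ∀ w, π (ι w) = w) (hVc : ∀ (x : X) (v : E), π v = 0 → Geod dev x v) (e : E) :
    e ∈ range dev ↔ ι (π e) ∈ range dev := by
  have key : ∀ e e' : E, π e = π e' → e ∈ range dev → e' ∈ range dev := by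
    rintro e e' h ⟨x, rfl⟩
    have h1 : π (e' - dev x) = 0 := by rw [map_sub, ← h, sub_self]
    obtain ⟨y, hy⟩ := Geod.ex D.loc (hVc x _ h1)
    exact ⟨y, by rw [hy.dev_eq]; abel⟩
  exact ⟨key e _ (hπι _).symm, key _ e (hπι _)⟩

/-- every slice of the developing image is a union of cosets of one `K`-hyperplane -/
theorem slice_struct (D : AffData X Γ E dev hol) (hinj : Function.Injective dev)
    (ι : W →L[ℝ] E) (B : Γ → W ≃ₗ[ℝ] W) (hι : ∀ γ w, (hol γ).linear (ι w) = ι (B γ w))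
    (hsemi : ∀ γ : Γ, ∃ σ : K ≃+* K, Semi σ (B γ)) {δ : ℝ} (hδ : 0 < δ)
    (hV : ∀ γ : Γ, ∃ f : W →L[ℝ] K, KLin f ∧ f ≠ 0 ∧ ∀ v, f v = 0 → δ * ‖v‖ ≤ ‖B γ v‖) (e : E) :
    ∃ f : W →L[ℝ] K, KLin f ∧ f ≠ 0 ∧ ∀ u w : W, f w = 0 → e + ι u ∈ range dev →
      e + ι (u + w) ∈ range dev := by
  have hop : IsOpen (range dev) := D.loc.isOpenMap.isOpen_range
  have hj : Continuous fun w : W => e + ι w := continuous_const.add ι.continuous
  have hΩ : IsOpen (slice (range dev) e ι) := hop.preimage hj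
  -- exit points
  have hexit : ∀ u w : W, u ∈ slice (range dev) e ι → u + w ∉ slice (range dev) e ι →
      ∃ t : ℝ, u + t • w ∈ closure (slice (range dev) e ι) ∧ u + t • w ∉ slice (range dev) e ι := by
    intro u w hu hw
    by_contra hcon
    push Not at hcon
    let T : Set ℝ := {t | u + t • w ∈ slice (range dev) e ι}
    have hc : Continuous fun t : ℝ => u + t • w := by fun_prop
    have h1 : IsOpen T := hΩ.preimage hc
    have h2 : IsClosed T := by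
      rw [← closure_subset_iff_isClosed]
      intro t ht
      exact hcon t (map_mem_closure (f := fun t : ℝ => u + t • w) hc ht fun s hs => hs)
    have h0 : (0 : ℝ) ∈ T := by
      show u + (0 : ℝ) • w ∈ slice (range dev) e ι
      rw [zero_smul, add_zero]; exact hu
    have h3 : T = univ := IsClopen.eq_univ ⟨h2, h1⟩ ⟨0, h0⟩
    have h4 : (1 : ℝ) ∈ T := by rw [h3]; exact mem_univ _
    apply hw
    have h5 : u + (1 : ℝ) • w ∈ slice (range dev) e ι := h4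
    rwa [one_smul] at h5
  by_cases hall : ∀ p ∈ closure (slice (range dev) e ι), p ∈ slice (range dev) e ι
  · obtain ⟨f, hf1, hf2, -⟩ := hV 1
    refine ⟨f, hf1, hf2, fun u w _ hu => ?_⟩
    by_contra hcon
    obtain ⟨t, ht1, ht2⟩ := hexit u w hu hcon
    exact ht2 (hall _ ht1)
  push Not at hall
  obtain ⟨p0, hp0, hp0'⟩ := hall
  obtain ⟨C0, hC0, hC0r, hcc⟩ := range_cc D
  obtain ⟨ρ, hρ, hB0⟩ := good_of_slice (K := K) hop (range_inv D)
    (range_pd D hinj) hC0 hC0r hcc hδ ι B hι hsemi hV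
  have hB := hB0 e
  obtain ⟨ψ, hψ⟩ := hB p0 hp0 hp0'
  refine ⟨ψ, hψ.1.1, hψ.1.2.1, fun u w hw hu => ?_⟩
  by_contra hcon
  obtain ⟨t, ht1, ht2⟩ := hexit u w hu hcon
  obtain ⟨φ, hφ⟩ := hB _ ht1 ht2
  have h3 : φ (-(t • w)) = 0 := by
    rw [map_neg, map_smul, (parallel hρ hB hψ hφ w).1 hw, smul_zero, neg_zero]
  obtain ⟨-, h4, -⟩ := whole hρ hB hφ h3
  apply h4
  rw [add_neg_cancel_right]
  exact hu

theorem slice_complete (D : AffData X Γ E dev hol) (hinj : Function.Injective dev)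
    (ι : W →L[ℝ] E) (π : E →L[ℝ] W) (hπι : ∀ w, π (ι w) = w)
    (B : Γ → W ≃ₗ[ℝ] W) (hι : ∀ γ w, (hol γ).linear (ι w) = ι (B γ w))
    (hπ : ∀ γ v, π ((hol γ).linear v) = B γ (π v))
    (hVc : ∀ (x : X) (v : E), π v = 0 → Geod dev x v)
    (hsemi : ∀ γ : Γ, ∃ σ : K ≃+* K, Semi σ (B γ)) {δ : ℝ} (hδ : 0 < δ)
    (hV : ∀ γ : Γ, ∃ f : W →L[ℝ] K, KLin f ∧ f ≠ 0 ∧ ∀ v, f v = 0 → δ * ‖v‖ ≤ ‖B γ v‖) :
    IsHomeomorph dev := by
  have hsl := slice_iff D ι π hπι hVc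
  set Ω : Set W := slice (range dev) 0 ι with hΩdef
  have hmemι : ∀ w : W, w ∈ Ω ↔ ι w ∈ range dev := fun w => by
    show 0 + ι w ∈ range dev ↔ _
    rw [zero_add]
  have hmem : ∀ e : E, e ∈ range dev ↔ π e ∈ Ω := fun e => (hsl e).trans (hmemι _).symm
  have hcl : ∀ e : E, e ∈ closure (range dev) → π e ∈ closure Ω := fun e he =>
    map_mem_closure π.continuous he fun q hq => (hmem q).1 hq
  by_cases hall : ∀ p ∈ closure Ω, p ∈ Ω
  · obtain ⟨x⟩ := (inferInstance : Nonempty X)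
    refine homeo_of_all D.loc (x := x) fun v => Geod.ex D.loc ?_
    by_contra hv
    obtain ⟨t, -, -, h1, h2⟩ := exit_point D.loc hinj hv
    exact h1 ((hmem _).2 (hall _ (hcl _ h2)))
  push Not at hall
  obtain ⟨p0, hp0, hp0'⟩ := hall
  obtain ⟨C0, hC0, hC0r, hcc⟩ := range_cc D
  obtain ⟨ρ, hρ, hB0⟩ := good_of_slice (K := K) D.loc.isOpenMap.isOpen_range (range_inv D)
    (range_pd D hinj) hC0 hC0r hcc hδ ι B hι hsemi hV
  have hB := hB0 0
  rw [← hΩdef] at hB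
  obtain ⟨ψ, hψ⟩ := hB p0 hp0 hp0'
  obtain ⟨v0, hv0⟩ := hψ.1.1.exists_one hψ.1.2.1
  have hv0ne : v0 ≠ 0 := by
    intro h
    rw [h, map_zero] at hv0
    exact zero_ne_one hv0
  -- completeness in the directions of the kernel
  have hcomp : ∀ (x : X) (v : E), ψ (π v) = 0 → Geod dev x v := by
    intro x v hv
    by_contra hg
    obtain ⟨t, -, -, h1, h2⟩ := exit_point D.loc hinj hg
    obtain ⟨φ, hφ⟩ := hB _ (hcl _ h2) (fun h => h1 ((hmem _).2 h))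
    have h3 : φ (-(t • π v)) = 0 := by
      rw [map_neg, map_smul, (parallel hρ hB hψ hφ (π v)).1 hv, smul_zero, neg_zero]
    obtain ⟨-, h4, -⟩ := whole hρ hB hφ h3
    apply h4
    rw [map_add, map_smul, add_neg_cancel_right]
    exact (hmem _).1 (mem_range_self x)
  -- the affine action on the slice
  let g : Γ → W → W := fun γ w => π (hol γ (ι w))
  have hg : ∀ γ w u, g γ (w + u) = g γ w + B γ u := by
    intro γ w u
    show π (hol γ (ι (w + u))) = π (hol γ (ι w)) + _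
    rw [map_add, hol_add, map_add]
    show π (hol γ (ι w)) + π ((hol γ).linear (ι u)) = _
    rw [hι, hπι]
  have hgΩ : ∀ γ w, w ∈ Ω ↔ g γ w ∈ Ω := by
    intro γ w
    rw [← hmem, hmemι]
    refine ⟨fun h => range_inv D γ _ h, fun h => ?_⟩
    have := range_inv D γ⁻¹ _ h
    rwa [hol_inv_apply] at this
  have hgc : ∀ γ, Continuous (g γ) := fun γ => π.continuous.comp ((hol_cont γ).comp ι.continuous)
  have hbd : ∀ γ p, p ∈ closure Ω → p ∉ Ω → g γ p ∈ closure Ω ∧ g γ p ∉ Ω := by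
    intro γ p h1 h2
    exact ⟨map_mem_closure (hgc γ) h1 fun q hq => (hgΩ γ q).1 hq, fun h => h2 ((hgΩ γ p).2 h)⟩
  -- invariance of the kernel
  have hinv1 : ∀ (γ : Γ) (w : W), ψ w = 0 → ψ ((B γ).symm w) = 0 := by
    intro γ w hw
    obtain ⟨σ, hσ⟩ := hsemi γ
    obtain ⟨f, hf1, -, hf3⟩ := hσ.push hv0ne hψ.1.1 hψ.1.2.1
    obtain ⟨h1, h2⟩ := hbd γ _ hp0 hp0'
    obtain ⟨φ, hφ⟩ := hB _ h1 h2
    have h3 : ∀ u, f u = 0 → ‖u‖ < 1 → g γ p0 + u ∉ Ω := by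
      intro u hu _
      have h4 : ψ ((B γ).symm u) = 0 := hf3 _ (by simpa using hu)
      obtain ⟨h5, h6, -⟩ := whole hρ hB hψ h4
      have h7 := (hbd γ _ h5 h6).2
      rwa [hg, LinearEquiv.apply_symm_apply] at h7
    have h4 := crossing hρ hφ.1 hf1 one_pos h3 w ((parallel hρ hB hψ hφ w).1 hw)
    exact hf3 _ (by simpa using h4)
  have hBinv : ∀ (γ : Γ) (w : W), B γ⁻¹ (B γ w) = w := by
    intro γ w
    have h1 := lin_inv_apply (hol := hol) γ (ι w)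
    have h2 : (hol γ⁻¹).linear ((hol γ).linear (ι w)) = ι w := h1
    rw [hι, hι] at h2
    have h3 := congrArg π h2
    rwa [hπι, hπι] at h3
  have hsymm : ∀ (γ : Γ) (v : W), (B γ⁻¹).symm v = B γ v := by
    intro γ v
    rw [LinearEquiv.symm_apply_eq]
    exact (hBinv γ v).symm
  have hinv : ∀ (γ : Γ) (w : W), ψ w = 0 → ψ (B γ w) = 0 := by
    intro γ w hw
    have := hinv1 γ⁻¹ w hw
    rwa [hsymm] at this
  -- the induced maps of `K`
  let rl : Γ → K →ₗ[ℝ] K := fun γ =>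
    { toFun := fun κ => ψ (B γ (κ • v0))
      map_add' := fun a b => by rw [add_smul, map_add, map_add]
      map_smul' := fun r a => by rw [smul_assoc, map_smul, map_smul]; rfl }
  have hrl : ∀ γ v, ψ (B γ v) = rl γ (ψ v) := by
    intro γ v
    have h1 : ψ (v - ψ v • v0) = 0 := by
      rw [map_sub, hψ.1.1, hv0, mul_one, sub_self]
    have h2 := hinv γ _ h1
    rw [map_sub, map_sub, sub_eq_zero] at h2
    exact h2
  have hnorm : ∀ γ κ, ‖rl γ κ‖ = ‖κ‖ * ‖ψ (B γ v0)‖ := by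
    intro γ κ
    obtain ⟨σ, hσ⟩ := hsemi γ
    show ‖ψ (B γ (κ • v0))‖ = _
    rw [hσ, hψ.1.1, norm_mul, hσ.norm_eq hv0ne]
  have hprod : ∀ γ, ‖ψ (B γ v0)‖ * ‖ψ (B γ⁻¹ v0)‖ = 1 := by
    intro γ
    rw [← hnorm, ← hrl, hBinv, hv0, norm_one]
  let T : K ≃L[ℝ] EuclideanSpace ℝ (Fin (Module.finrank ℝ K)) := toEuclidean
  let rc : Γ → K →L[ℝ] K := fun γ => LinearMap.toContinuousLinearMap (rl γ)
  have hrc : ∀ γ, ‖rc γ‖ ≤ ‖ψ (B γ v0)‖ := by
    intro γ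
    refine ContinuousLinearMap.opNorm_le_bound _ (norm_nonneg _) fun κ => ?_
    show ‖rl γ κ‖ ≤ _
    rw [hnorm, mul_comm]
  let Tc : K →L[ℝ] EuclideanSpace ℝ (Fin (Module.finrank ℝ K)) := T
  let Ts : EuclideanSpace ℝ (Fin (Module.finrank ℝ K)) →L[ℝ] K := T.symm
  let r : Γ → EuclideanSpace ℝ (Fin (Module.finrank ℝ K)) →L[ℝ]
    EuclideanSpace ℝ (Fin (Module.finrank ℝ K)) := fun γ => Tc.comp ((rc γ).comp Ts)
  obtain ⟨C, hC0', hC⟩ : ∃ C : ℝ, 0 < C ∧ ∀ γ, ‖r γ‖ ≤ C * ‖ψ (B γ v0)‖ := by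
    refine ⟨‖Tc‖ * ‖Ts‖ + 1, by positivity, fun γ => ?_⟩
    calc ‖r γ‖ ≤ ‖Tc‖ * ‖(rc γ).comp Ts‖ := ContinuousLinearMap.opNorm_comp_le _ _
      _ ≤ ‖Tc‖ * (‖rc γ‖ * ‖Ts‖) := by
          gcongr; exact ContinuousLinearMap.opNorm_comp_le _ _
      _ ≤ ‖Tc‖ * (‖ψ (B γ v0)‖ * ‖Ts‖) := by
          gcongr; exact hrc γ
      _ = (‖Tc‖ * ‖Ts‖) * ‖ψ (B γ v0)‖ := by ring
      _ ≤ _ := by gcongr; linarith
  refine Pool.Agent.TH569.MK.exp_chain_complete D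
    (fun _ => LinearMap.ker ((ψ.comp π : E →L[ℝ] K) : E →ₗ[ℝ] K)) 0
    (fun x v hv => hcomp x v hv)
    (fun i hi => absurd hi (Nat.not_lt_zero i)) (Tc.comp (ψ.comp π)) ?_ ?_ r ?_ ?_
  · intro q
    refine ⟨ι (Ts q • v0), ?_⟩
    show T (ψ (π (ι (Ts q • v0)))) = q
    rw [hπι, hψ.1.1, hv0, mul_one]
    exact T.apply_symm_apply q
  · intro v hv
    have h1 : T (ψ (π v)) = 0 := hv
    exact T.injective (h1.trans (map_zero T).symm)
  · intro γ v
    show T (ψ (π ((hol γ).linear v))) = T (rl γ (T.symm (T (ψ (π v)))))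
    rw [T.symm_apply_apply, hπ, hrl]
  · intro ε hε
    refine ⟨C ^ 2 / ε, fun γ hγ => ?_⟩
    have h1 := hγ.trans (hC γ)
    have h2 := hC γ⁻¹
    have h3 := hprod γ
    have h4 : 0 < ‖ψ (B γ v0)‖ := by
      by_contra hcon
      have : ‖ψ (B γ v0)‖ = 0 := le_antisymm (not_lt.1 hcon) (norm_nonneg _)
      rw [this, zero_mul] at h3
      exact zero_ne_one h3
    refine h2.trans ?_
    have h5 : ‖ψ (B γ⁻¹ v0)‖ = ‖ψ (B γ v0)‖⁻¹ := by
      rw [eq_comm, inv_eq_of_mul_eq_one_right h3]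
    rw [h5, ← div_eq_mul_inv, div_le_iff₀ h4]
    rw [div_le_iff₀ hε] at h1
    have h6 : C * C ≤ C * (ε * ‖ψ (B γ v0)‖) := by
      calc C * C = C ^ 2 := by ring
        _ ≤ C * ‖ψ (B γ v0)‖ * ε := h1
        _ = _ := by ring
    exact le_of_mul_le_mul_left h6 hC0'

end main

end Pool.Agent.R522.Mk
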