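import Pool.Agent.R522.Mk.Slice

/-!
Specialization of the slice theorem to model spaces which are products `V × W`.
-/

set_option autoImplicit false

open Set Filter Topology Metric
open Pool.Agent.W689.Mk Pool.Agent.TH94.MK Pool.Agent.R774.MK

namespace Pool.Agent.R522.Mk

section distal
variable {V W Γ X : Type} [NormedAddCommGroup V] [NormedSpace ℝ V] [FiniteDimensional ℝ V]
  [NormedAddCommGroup W] [NormedSpace ℝ W] [FiniteDimensional ℝ W]
  [Group Γ] {hol : Γ →* ((V × W) ≃ᵃ[ℝ] (V × W))}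
  [TopologicalSpace X] [T2Space X] [SecondCountableTopology X] [MulAction Γ X]
  {dev : X → V × W}

/-- distal directions are complete -/
theorem distal_dirs (D : AffData X Γ (V × W) dev hol) (A : Γ → V ≃ₗ[ℝ] V) (B : Γ → W ≃ₗ[ℝ] W)
    (hAB : ∀ γ v w, (hol γ).linear (v, w) = (A γ v, B γ w)) (S : ℕ → Submodule ℝ V) (m : ℕ)
    (h0 : S 0 = ⊥) (hm : S m = ⊤)
    (hC : ∀ i < m, ∃ C : ℝ, ∀ γ : Γ, ∀ v ∈ S (i + 1), ∃ w ∈ S i, ‖A γ v - w‖ ≤ C * ‖v‖)
    (x : X) (v : V) : Geod dev x (v, 0) := by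
  have key := Pool.Agent.TH569.MK.chain_complete D (fun i => (S i).prod (⊥ : Submodule ℝ W)) m
    ?_ ?_ x (v, 0) ?_
  · obtain ⟨y, hy⟩ := key
    exact hy.geod
  · intro x u hu
    rw [h0, Submodule.prod_bot, Submodule.mem_bot] at hu
    rw [hu]
    exact Geod.ex D.loc ⟨fun _ => x, continuousOn_const, rfl, fun t _ => by simp⟩
  · intro i hi
    obtain ⟨C, hC⟩ := hC i hi
    refine ⟨C, fun γ u hu => ?_⟩
    obtain ⟨u1, u2⟩ := u
    rw [Submodule.mem_prod] at hu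
    obtain ⟨hu1, hu2⟩ := hu
    have hu2' : u2 = 0 := by simpa using hu2
    subst hu2'
    obtain ⟨w, hw, h⟩ := hC γ u1 hu1
    refine ⟨(w, 0), ?_, ?_⟩
    · rw [Submodule.mem_prod]
      exact ⟨hw, by simp⟩
    · show ‖(hol γ).linear (u1, 0) - (w, 0)‖ ≤ C * ‖(u1, (0 : W))‖
      rw [hAB, map_zero, Prod.mk_sub_mk, sub_zero, Prod.norm_mk, Prod.norm_mk, norm_zero,
        max_eq_left (norm_nonneg _), max_eq_left (norm_nonneg _)]
      exact h
  · rw [Submodule.mem_prod, hm]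
    exact ⟨Submodule.mem_top, by simp⟩

end distal

section split
variable {K V W Γ X : Type} [NormedDivisionRing K] [NormedAlgebra ℝ K] [FiniteDimensional ℝ K]
  [NormedAddCommGroup V] [NormedSpace ℝ V] [FiniteDimensional ℝ V]
  [NormedAddCommGroup W] [NormedSpace ℝ W] [Module K W] [IsScalarTower ℝ K W] [IsBoundedSMul K W]
  [FiniteDimensional ℝ W] [Group Γ] {hol : Γ →* ((V × W) ≃ᵃ[ℝ] (V × W))}
  [TopologicalSpace X] [T2Space X] [SecondCountableTopology X] [ConnectedSpace X] [MulAction Γ X]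
  {dev : X → V × W}

theorem split_complete (D : AffData X Γ (V × W) dev hol) (hinj : Function.Injective dev)
    (A : Γ → V ≃ₗ[ℝ] V) (B : Γ → W ≃ₗ[ℝ] W)
    (hAB : ∀ γ v w, (hol γ).linear (v, w) = (A γ v, B γ w))
    (hVc : ∀ (x : X) (v : V), Geod dev x (v, 0))
    (hsemi : ∀ γ : Γ, ∃ σ : K ≃+* K, Semi σ (B γ)) {δ : ℝ} (hδ : 0 < δ)
    (hV : ∀ γ : Γ, ∃ f : W →L[ℝ] K, KLin f ∧ f ≠ 0 ∧ ∀ v, f v = 0 → δ * ‖v‖ ≤ ‖B γ v‖) :
    IsHomeomorph dev := by
  refine slice_complete (K := K) D hinj (ContinuousLinearMap.inr ℝ V W)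
    (ContinuousLinearMap.snd ℝ V W) (fun w => rfl) B ?_ ?_ ?_ hsemi hδ hV
  · intro γ w
    show (hol γ).linear (0, w) = (0, B γ w)
    rw [hAB, map_zero]
  · intro γ v
    show ((hol γ).linear (v.1, v.2)).2 = B γ v.2
    rw [hAB]
  · rintro x ⟨v, w⟩ hv
    have hw : w = 0 := hv
    rw [hw]
    exact hVc x v

end split

section geod
variable {K E W Γ X : Type} [NormedDivisionRing K] [NormedAlgebra ℝ K] [FiniteDimensional ℝ K]
  [NormedAddCommGroup E] [NormedSpace ℝ E] [FiniteDimensional ℝ E]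
  [NormedAddCommGroup W] [NormedSpace ℝ W] [Module K W] [IsScalarTower ℝ K W] [IsBoundedSMul K W]
  [FiniteDimensional ℝ W] [Group Γ] {hol : Γ →* (E ≃ᵃ[ℝ] E)}
  [TopologicalSpace X] [T2Space X] [SecondCountableTopology X] [ConnectedSpace X] [MulAction Γ X]
  {dev : X → E}

/-- slices parallel to `W` are foliated by complete parallel `K`-hyperplanes -/
theorem slice_geod (D : AffData X Γ E dev hol) (hinj : Function.Injective dev)
    (ι : W →ₗ[ℝ] E) (B : Γ → W ≃ₗ[ℝ] W) (hι : ∀ γ w, (hol γ).linear (ι w) = ι (B γ w))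
    (hsemi : ∀ γ : Γ, ∃ σ : K ≃+* K, Semi σ (B γ)) {δ : ℝ} (hδ : 0 < δ)
    (hV : ∀ γ : Γ, ∃ f : W →ₗ[K] K, f ≠ 0 ∧ ∀ v, f v = 0 → δ * ‖v‖ ≤ ‖B γ v‖) (x : X) :
    ∃ f : W →ₗ[K] K, f ≠ 0 ∧
      ∀ (y : X) (u w : W), dev y = dev x + ι u → f w = 0 → Geod dev y (ι w) := by
  obtain ⟨f, hf1, hf2, hf3⟩ := slice_struct (K := K) D hinj (LinearMap.toContinuousLinearMap ι) B
    hι hsemi hδ (fun γ => by
      obtain ⟨f, hf, h⟩ := hV γ
      obtain ⟨g, hg1, hg2, hg3⟩ := klin_of hf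
      exact ⟨g, hg1, hg2, fun v hv => h v (by rw [← hg3]; exact hv)⟩) (dev x)
  let f' : W →ₗ[K] K :=
    { toFun := fun w => f w
      map_add' := fun a b => map_add f a b
      map_smul' := fun a v => hf1 a v }
  refine ⟨f', ?_, ?_⟩
  · intro h
    apply hf2
    ext w
    exact congrArg (fun g : W →ₗ[K] K => g w) h
  · intro y u w hy hw
    by_contra hg
    obtain ⟨t, -, -, h1, -⟩ := exit_point D.loc hinj hg
    apply h1
    have hw' : f w = 0 := hw
    have h2 : dev x + ι (u + t • w) ∈ range dev :=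
      hf3 u (t • w) (by rw [map_smul, hw', smul_zero]) ⟨y, hy⟩
    rw [map_add, map_smul, ← add_assoc, ← hy] at h2
    exact h2

end geod

end Pool.Agent.R522.Mk
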