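import Pool.Agent.R774.MK4

/-!
Domains of `W ^ ι` with compact quotient by affine groups whose linear parts are products
`A ⊗ B`: the boundary is a union of parallel plates `(ker ψ) ^ ι`, `ψ` a `K`-linear functional.
-/

set_option autoImplicit false

open Set Filter Topology Metric
open Pool.Agent.W689.Mk Pool.Agent.TH94.MK Pool.Agent.R774.MK

namespace Pool.Agent.R522.Mk.Ten

section lin
variable {ι K W : Type} [Fintype ι] [NormedDivisionRing K] [NormedAlgebra ℝ K]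
  [NormedAddCommGroup W] [NormedSpace ℝ W] [Module K W] [IsBoundedSMul K W]

/-- the plate of `ψ` -/
def Pl (ψ : W →L[ℝ] K) (u : ι → W) : Prop := ∀ i, ψ (u i) = 0

theorem Pl.zero (ψ : W →L[ℝ] K) : Pl ψ (0 : ι → W) := fun i => map_zero ψ

theorem Pl.add {ψ : W →L[ℝ] K} {u v : ι → W} (hu : Pl ψ u) (hv : Pl ψ v) : Pl ψ (u + v) :=
  fun i => by rw [Pi.add_apply, map_add, hu i, hv i, add_zero]

theorem Pl.smul {ψ : W →L[ℝ] K} {u : ι → W} (hu : Pl ψ u) (t : ℝ) : Pl ψ (t • u) :=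
  fun i => by rw [Pi.smul_apply, map_smul, hu i, smul_zero]

theorem Pl.neg {ψ : W →L[ℝ] K} {u : ι → W} (hu : Pl ψ u) : Pl ψ (-u) :=
  fun i => by rw [Pi.neg_apply, map_neg, hu i, neg_zero]

theorem Pl.congr {ψ φ : W →L[ℝ] K} (h : ∀ w, ψ w = 0 ↔ φ w = 0) {u : ι → W} (hu : Pl ψ u) :
    Pl φ u := fun i => (h _).1 (hu i)

variable (K) in
/-- `ψ` is the limit of functionals `Ψ j` such that `Ω` contains the discs of radius `ρ` of the
plates of `Ψ j` about points converging to `q` -/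
def Lim (Ω : Set (ι → W)) (ρ : ℝ) (q : ι → W) (ψ : W →L[ℝ] K) : Prop :=
  KLin ψ ∧ ψ ≠ 0 ∧ ∃ (z : ℕ → ι → W) (Ψ : ℕ → W →L[ℝ] K), Tendsto z atTop (𝓝 q) ∧
    Tendsto Ψ atTop (𝓝 ψ) ∧ (∀ j, KLin (Ψ j)) ∧ ∀ j u, Pl (Ψ j) u → ‖u‖ ≤ ρ → z j + u ∈ Ω

theorem crossing {Ω : Set (ι → W)} {ρ : ℝ} (hρ : 0 < ρ) {q : ι → W} {ψ' : W →L[ℝ] K}
    (h : Lim K Ω ρ q ψ') {ψ : W →L[ℝ] K} (hψ : KLin ψ) {ε : ℝ} (hε : 0 < ε)
    (hpl : ∀ u, Pl ψ u → ‖u‖ < ε → q + u ∉ Ω) : ∀ w, ψ' w = 0 → ψ w = 0 := by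
  intro w hw
  by_contra hne
  obtain ⟨h1, h2, z, Ψ, hz, hΨ, hK, hin⟩ := h
  obtain ⟨U, hU, hU0⟩ := ker_approx hK hΨ h2 hw
  have h3 : Tendsto (fun j => ψ (U j)) atTop (𝓝 (ψ w)) := (ψ.continuous.tendsto w).comp hU
  have h5 : Tendsto (fun j => z j - q) atTop (𝓝 0) := by
    have := hz.sub_const q
    rwa [sub_self] at this
  have h4 : ∀ i, Tendsto (fun j => ψ ((z j - q) i)) atTop (𝓝 0) := by
    intro i
    have h6 : Tendsto (fun j => (z j - q) i) atTop (𝓝 ((0 : ι → W) i)) :=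
      (tendsto_pi_nhds.1 h5) i
    have h7 := (ψ.continuous.tendsto ((0 : ι → W) i)).comp h6
    rwa [Pi.zero_apply, map_zero] at h7
  let s : ℕ → ι → K := fun j i => -(ψ ((z j - q) i)) * (ψ (U j))⁻¹
  have hs : ∀ i, Tendsto (fun j => s j i) atTop (𝓝 0) := by
    intro i
    have := (h4 i).neg.mul (h3.inv₀ hne)
    rwa [neg_zero, zero_mul] at this
  let V : ℕ → ι → W := fun j i => s j i • U j
  have hV : Tendsto V atTop (𝓝 0) := by
    refine tendsto_pi_nhds.2 fun i => ?_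
    have := (hs i).smul hU
    rwa [zero_smul] at this
  have hsum : Tendsto (fun j => z j + V j - q) atTop (𝓝 0) := by
    have := (hz.add hV).sub_const q
    rwa [add_zero, sub_self] at this
  have e1 : ∀ᶠ j in atTop, ψ (U j) ≠ 0 := h3.eventually_ne hne
  have e2 : ∀ᶠ j in atTop, ‖V j‖ < ρ := by
    have := hV.norm
    rw [norm_zero] at this
    exact this.eventually_lt_const hρ
  have e3 : ∀ᶠ j in atTop, ‖z j + V j - q‖ < ε := by
    have := hsum.norm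
    rw [norm_zero] at this
    exact this.eventually_lt_const hε
  obtain ⟨j, j1, j2, j3, j4⟩ := (e1.and (e2.and (e3.and hU0))).exists
  have h7 : Pl ψ (z j + V j - q) := by
    intro i
    have : (z j + V j - q) i = (z j - q) i + s j i • U j := by
      show z j i + s j i • U j - q i = z j i - q i + s j i • U j
      abel
    rw [this, map_add, hψ]
    show ψ ((z j - q) i) + -(ψ ((z j - q) i)) * (ψ (U j))⁻¹ * ψ (U j) = 0
    rw [mul_assoc, inv_mul_cancel₀ j1, mul_one, add_neg_cancel]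
  have h8 := hpl _ h7 j3
  apply h8
  have h9 : q + (z j + V j - q) = z j + V j := by abel
  rw [h9]
  refine hin j _ (fun i => ?_) j2.le
  show Ψ j (s j i • U j) = 0
  rw [hK j, j4, mul_zero]

variable (K) in
/-- a limit plate with a disc outside of `Ω` -/
def Good (Ω : Set (ι → W)) (ρ : ℝ) (q : ι → W) (ψ : W →L[ℝ] K) : Prop :=
  Lim K Ω ρ q ψ ∧ ∀ u, Pl ψ u → ‖u‖ < ρ → q + u ∉ Ω

/-- vectors of the limit plate are limits of vectors of the plates -/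
theorem pl_approx {Ψ : ℕ → W →L[ℝ] K} {ψ : W →L[ℝ] K} (h : ∀ j, KLin (Ψ j))
    (ht : Tendsto Ψ atTop (𝓝 ψ)) (h0 : ψ ≠ 0) {u : ι → W} (hu : Pl ψ u) :
    ∃ U : ℕ → ι → W, Tendsto U atTop (𝓝 u) ∧ ∀ᶠ j in atTop, Pl (Ψ j) (U j) := by
  choose U hU hU0 using fun i => ker_approx h ht h0 (hu i)
  exact ⟨fun j i => U i j, tendsto_pi_nhds.2 hU, eventually_all.2 hU0⟩

theorem Good.closure {Ω : Set (ι → W)} {ρ : ℝ} {q : ι → W} {ψ : W →L[ℝ] K}
    (h : Good K Ω ρ q ψ) {u : ι → W} (hu : Pl ψ u) (huρ : ‖u‖ < ρ) : q + u ∈ closure Ω := by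
  obtain ⟨⟨h1, h2, z, Ψ, hz, hΨ, hK, hin⟩, -⟩ := h
  obtain ⟨U, hU, hU0⟩ := pl_approx hK hΨ h2 hu
  have e1 : ∀ᶠ j in atTop, ‖U j‖ < ρ := hU.norm.eventually_lt_const huρ
  refine mem_closure_of_tendsto (hz.add hU) ?_
  filter_upwards [hU0, e1] with j j1 j2
  exact hin j _ j1 j2.le

theorem step {Ω : Set (ι → W)} {ρ : ℝ} (hρ : 0 < ρ) {q : ι → W} {ψ : W →L[ℝ] K}
    (h : Good K Ω ρ q ψ) {u : ι → W} (hu : Pl ψ u) (huρ : ‖u‖ < ρ / 2) {ψ' : W →L[ℝ] K}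
    (h' : Good K Ω ρ (q + u) ψ') (w : W) : ψ w = 0 ↔ ψ' w = 0 := by
  refine ker_eq h.1.1 h'.1.1 h.1.2.1 h'.1.2.1 ?_ w
  refine crossing hρ h'.1 h.1.1 (ε := ρ / 2) (by linarith) fun v hv hvρ => ?_
  rw [add_assoc]
  refine h.2 _ (hu.add hv) ?_
  calc ‖u + v‖ ≤ ‖u‖ + ‖v‖ := norm_add_le _ _
    _ < ρ := by linarith

/-- the whole plate belongs to the boundary -/
theorem whole {Ω : Set (ι → W)} {ρ : ℝ} (hρ : 0 < ρ)
    (hB : ∀ p ∈ closure Ω, p ∉ Ω → ∃ ψ, Good K Ω ρ p ψ) {p : ι → W} {ψ : W →L[ℝ] K}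
    (h : Good K Ω ρ p ψ) {u : ι → W} (hu : Pl ψ u) :
    p + u ∈ closure Ω ∧ p + u ∉ Ω ∧ ∃ ψ', Good K Ω ρ (p + u) ψ' ∧ ∀ w, ψ w = 0 ↔ ψ' w = 0 := by
  obtain ⟨N, hN⟩ := exists_nat_gt (‖u‖ / (ρ / 2))
  have hN0 : (0 : ℝ) < N := lt_of_le_of_lt (by positivity) hN
  have hstep : ‖((N : ℝ)⁻¹) • u‖ < ρ / 2 := by
    rw [norm_smul, norm_inv, Real.norm_of_nonneg hN0.le]
    rw [div_lt_iff₀ (by positivity)] at hN
    rw [inv_mul_lt_iff₀ hN0]
    exact hN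
  have key : ∀ i : ℕ, ∃ ψ', Good K Ω ρ (p + ((i : ℝ) * (N : ℝ)⁻¹) • u) ψ' ∧
      ∀ w, ψ w = 0 ↔ ψ' w = 0 := by
    intro i
    induction i with
    | zero =>
      refine ⟨ψ, ?_, fun u => Iff.rfl⟩
      simpa using h
    | succ i ih =>
      obtain ⟨ψ1, h1, h2⟩ := ih
      have h3 : Pl ψ1 (((N : ℝ)⁻¹) • u) := (hu.congr h2).smul _
      have e1 : p + (((i + 1 : ℕ) : ℝ) * (N : ℝ)⁻¹) • u =
          p + ((i : ℝ) * (N : ℝ)⁻¹) • u + ((N : ℝ)⁻¹) • u := by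
        push_cast
        module
      have h4 := h1.closure h3 (hstep.trans (by linarith))
      have h5 := h1.2 _ h3 (hstep.trans (by linarith))
      obtain ⟨ψ2, h6⟩ := hB _ h4 h5
      rw [e1]
      exact ⟨ψ2, h6, fun w => (h2 w).trans (step hρ h1 h3 hstep h6 w)⟩
  obtain ⟨ψ', h1, h2⟩ := key N
  rw [mul_inv_cancel₀ hN0.ne', one_smul] at h1
  refine ⟨?_, ?_, ψ', h1, h2⟩
  · have := h1.closure (Pl.zero _) (by rw [norm_zero]; exact hρ)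
    rwa [add_zero] at this
  · have := h1.2 0 (Pl.zero _) (by rw [norm_zero]; exact hρ)
    rwa [add_zero] at this

/-- all boundary plates are parallel -/
theorem parallel {Ω : Set (ι → W)} {ρ : ℝ} (hρ : 0 < ρ)
    (hB : ∀ p ∈ closure Ω, p ∉ Ω → ∃ ψ, Good K Ω ρ p ψ) {p q : ι → W} {ψ φ : W →L[ℝ] K}
    (h : Good K Ω ρ p ψ) (h' : Good K Ω ρ q φ) (w : W) : ψ w = 0 ↔ φ w = 0 := by
  by_cases hk : ∀ w, φ w = 0 → ψ w = 0
  · exact ker_eq h.1.1 h'.1.1 h.1.2.1 h'.1.2.1 hk w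
  exfalso
  push Not at hk
  obtain ⟨w, hw, hne⟩ := hk
  -- the point of intersection
  let s : ι → K := fun i => ψ ((p - q) i) * (ψ w)⁻¹
  let v : ι → W := fun i => s i • w
  have hs : Pl ψ (q + v - p) := by
    intro i
    have : (q + v - p) i = s i • w - (p - q) i := by
      show q i + s i • w - p i = s i • w - (p i - q i)
      abel
    rw [this, map_sub, h.1.1]
    show ψ ((p - q) i) * (ψ w)⁻¹ * ψ w - ψ ((p - q) i) = 0
    rw [mul_assoc, inv_mul_cancel₀ hne, mul_one, sub_self]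
  have hs' : Pl φ v := fun i => by
    show φ (s i • w) = 0
    rw [h'.1.1, hw, mul_zero]
  obtain ⟨c1, c2, ψ1, c3, c4⟩ := whole hρ hB h hs
  obtain ⟨d1, d2, ψ2, d3, d4⟩ := whole hρ hB h' hs'
  have e : p + (q + v - p) = q + v := by abel
  rw [e] at c3
  -- both limits
  have h1 := crossing hρ c3.1 d3.1.1 hρ d3.2
  have h2 := ker_eq d3.1.1 c3.1.1 d3.1.2.1 c3.1.2.1 h1 w
  exact hne ((c4 w).2 (h2.1 ((d4 w).1 hw)))

end lin

end Pool.Agent.R522.Mk.Ten
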