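import Pool.Agent.R522.Mk.Ten1

set_option autoImplicit false

open Set Filter Topology Metric
open Pool.Agent.W689.Mk Pool.Agent.TH94.MK
open Pool.Agent.R774.MK (KLin Semi ker_eq ker_approx klin_of)

namespace Pool.Agent.R522.Mk.Ten

section mat
variable {ι K M : Type} [Fintype ι] [DecidableEq ι] [NormedDivisionRing K] [AddCommGroup M]
  [Module K M]

theorem inv_apply {A A' : Matrix ι ι K} (h : A' * A = 1) (x : ι → M) (k : ι) :
    ∑ i, A' k i • ∑ j, A i j • x j = x k := by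
  have h1 : ∀ i, A' k i • ∑ j, A i j • x j = ∑ j, (A' k i * A i j) • x j := by
    intro i
    rw [Finset.smul_sum]
    exact Finset.sum_congr rfl fun j _ => smul_smul _ _ _
  rw [Finset.sum_congr rfl fun i _ => h1 i, Finset.sum_comm]
  have h2 : ∀ j, ∑ i, (A' k i * A i j) • x j = (1 : Matrix ι ι K) k j • x j := by
    intro j
    rw [← Finset.sum_smul, ← h, Matrix.mul_apply]
  rw [Finset.sum_congr rfl fun j _ => h2 j]
  rw [Finset.sum_eq_single k]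
  · rw [Matrix.one_apply_eq, one_smul]
  · intro j _ hj
    rw [Matrix.one_apply_ne hj.symm, zero_smul]
  · intro h; exact absurd (Finset.mem_univ k) h

end mat

section push
variable {ι K W : Type} [Fintype ι] [DecidableEq ι] [NormedDivisionRing K] [NormedAlgebra ℝ K]
  [NormedAddCommGroup W] [NormedSpace ℝ W] [Module K W]

theorem pl_push {A A' : Matrix ι ι K} (h : A' * A = 1) {B : W ≃ₗ[ℝ] W}
    {L : (ι → W) ≃ₗ[ℝ] (ι → W)} (hL : ∀ u i, L u i = ∑ j, A i j • B (u j))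
    {f g : W →L[ℝ] K} (hg : KLin g) (hfg : ∀ w, g (B w) = 0 → f w = 0) {u : ι → W}
    (hu : Pl g (L u)) : Pl f u := by
  intro k
  apply hfg
  have h1 : ∀ i, ∑ j, A i j • g (B (u j)) = 0 := by
    intro i
    have h2 := hu i
    rw [hL, map_sum] at h2
    rw [← h2]
    exact Finset.sum_congr rfl fun j _ => (hg _ _).symm
  have h3 := inv_apply h (fun j => g (B (u j))) k
  rw [← h3]
  exact Finset.sum_eq_zero fun i _ => by rw [h1 i, smul_zero]

end push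

section good
variable {ι K W Γ : Type} [Fintype ι] [DecidableEq ι] [NormedDivisionRing K] [NormedAlgebra ℝ K]
  [NormedAddCommGroup W] [NormedSpace ℝ W] [Module K W] [IsScalarTower ℝ K W] [IsBoundedSMul K W]
  [FiniteDimensional ℝ W] [FiniteDimensional ℝ K]
  [Group Γ] {hol : Γ →* ((ι → W) ≃ᵃ[ℝ] (ι → W))}

theorem good_of_boundary {Ω : Set (ι → W)} (hΩ : IsOpen Ω)
    (hinv : ∀ (γ : Γ), ∀ q ∈ Ω, hol γ q ∈ Ω)
    (hpd : ∀ C : Set (ι → W), IsCompact C → C ⊆ Ω → {γ : Γ | ∃ c ∈ C, hol γ c ∈ C}.Finite)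
    {C0 : Set (ι → W)} (hC0 : IsCompact C0) (hC0Ω : C0 ⊆ Ω)
    (hcc : ∀ q ∈ Ω, ∃ γ : Γ, ∃ c ∈ C0, hol γ c = q) {δ : ℝ} (hδ : 0 < δ)
    (A A' : Γ → Matrix ι ι K) (B : Γ → W ≃ₗ[ℝ] W) (hA : ∀ γ, A' γ * A γ = 1)
    (hL : ∀ γ u i, (hol γ).linear u i = ∑ j, A γ i j • B γ (u j))
    (hsemi : ∀ γ : Γ, ∃ σ : K ≃+* K, Semi σ (B γ))
    (hV : ∀ γ : Γ, ∃ f : W →L[ℝ] K, KLin f ∧ f ≠ 0 ∧
      ∀ u, Pl f u → δ * ‖u‖ ≤ ‖(hol γ).linear u‖) :
    ∃ ρ > 0, ∀ p ∈ closure Ω, p ∉ Ω → ∃ ψ : W →L[ℝ] K, Good K Ω ρ p ψ := by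
  have : ProperSpace (ι → W) := FiniteDimensional.proper_real _
  have : ProperSpace W := FiniteDimensional.proper_real _
  obtain ⟨r, hr, hrΩ⟩ := hC0.exists_cthickening_subset_open hΩ hC0Ω
  refine ⟨δ * r, by positivity, fun p hp hpΩ => ?_⟩
  obtain ⟨a, haΩ, ha⟩ := mem_closure_iff_seq_limit.1 hp
  choose γ c hc hγc using fun k => hcc (a k) (haΩ k)
  have hC1 : IsCompact (cthickening r C0) := hC0.cthickening
  have hin : ∀ k (w : ι → W), ‖w‖ ≤ r → c k + w ∈ cthickening r C0 := by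
    intro k w hw
    refine mem_cthickening_of_dist_le _ _ _ _ (hc k) ?_
    rw [dist_eq_norm, add_sub_cancel_left]; exact hw
  have hmove : ∀ k (w : ι → W), hol (γ k) (c k + w) = a k + (hol (γ k)).linear w := by
    intro k w
    rw [hol_add, hγc k]
  -- first claim
  have claim1 : ∀ q ∈ Ω, ∃ ε > 0, ∀ᶠ k in atTop, ∀ w : ι → W, ‖w‖ ≤ r →
      a k + (hol (γ k)).linear w ∉ closedBall q ε := by
    intro q hq
    obtain ⟨ε, hε, hεΩ⟩ := Metric.nhds_basis_closedBall.mem_iff.1 (hΩ.mem_nhds hq)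
    refine ⟨ε, hε, ?_⟩
    have hC : IsCompact (cthickening r C0 ∪ closedBall q ε) := hC1.union (isCompact_closedBall _ _)
    have hCΩ : cthickening r C0 ∪ closedBall q ε ⊆ Ω := union_subset hrΩ hεΩ
    have hF := hpd _ hC hCΩ
    set F := {γ : Γ | ∃ c ∈ cthickening r C0 ∪ closedBall q ε,
      hol γ c ∈ cthickening r C0 ∪ closedBall q ε} with hFdef
    have hT : IsCompact (⋃ g ∈ F, hol g '' C0) :=
      hF.isCompact_biUnion fun g _ => hC0.image (hol_cont g)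
    have hpT : p ∉ ⋃ g ∈ F, hol g '' C0 := by
      intro hcon
      obtain ⟨g, _, hcon⟩ := mem_iUnion₂.1 hcon
      obtain ⟨c', hc', rfl⟩ := hcon
      exact hpΩ (hinv g c' (hC0Ω hc'))
    have hev : ∀ᶠ k in atTop, a k ∉ ⋃ g ∈ F, hol g '' C0 :=
      ha.eventually (hT.isClosed.isOpen_compl.mem_nhds hpT)
    filter_upwards [hev] with k hk w hw hcon
    apply hk
    refine mem_iUnion₂.2 ⟨γ k, ?_, c k, hc k, hγc k⟩
    refine ⟨c k + w, Or.inl (hin k w hw), Or.inr ?_⟩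
    rw [hmove]; exact hcon
  -- a nonzero vector
  obtain ⟨f0, -, hf0, -⟩ := hV 1
  obtain ⟨v0, hv0⟩ : ∃ v0 : W, v0 ≠ 0 := by
    by_contra hcon
    push Not at hcon
    apply hf0
    ext v
    rw [hcon v, map_zero, map_zero]
  -- functionals
  have hex : ∀ k, ∃ g : W →L[ℝ] K, KLin g ∧ ‖g‖ = 1 ∧
      ∀ u : ι → W, Pl g u → ‖u‖ ≤ δ * r → ∃ v, ‖v‖ ≤ r ∧ (hol (γ k)).linear v = u := by
    intro k
    obtain ⟨σ, hσ⟩ := hsemi (γ k)
    obtain ⟨f, hf1, hf2, hf3⟩ := hV (γ k)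
    obtain ⟨g, hg1, hg2, hg3⟩ := hσ.push hv0 hf1 hf2
    refine ⟨g, hg1, hg2, fun u hu hur => ⟨(hol (γ k)).linear.symm u, ?_, by simp⟩⟩
    have h1 : Pl f ((hol (γ k)).linear.symm u) := by
      refine pl_push (hA (γ k)) (hL (γ k)) hg1 hg3 ?_
      rw [LinearEquiv.apply_symm_apply]
      exact hu
    have h2 := hf3 _ h1
    rw [LinearEquiv.apply_symm_apply] at h2
    have h3 := h2.trans hur
    exact le_of_mul_le_mul_left h3 hδ
  choose g hg1 hg2 hg3 using hex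
  obtain ⟨ψ, hψ, φ, hφ, hφt⟩ := (isCompact_sphere (0 : W →L[ℝ] K) 1).tendsto_subseq
    (x := g) (fun k => by rw [mem_sphere_zero_iff_norm]; exact hg2 k)
  have hφa := hφ.tendsto_atTop
  have hψ1 : ‖ψ‖ = 1 := by rwa [mem_sphere_zero_iff_norm] at hψ
  have hψ0 : ψ ≠ 0 := by
    intro h0
    rw [h0, norm_zero] at hψ1
    exact zero_ne_one hψ1
  refine ⟨ψ, ⟨KLin.lim (fun j => hg1 (φ j)) hφt, hψ0, fun k => a (φ k), fun k => g (φ k),
    ha.comp hφa, hφt, fun j => hg1 _, ?_⟩, ?_⟩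
  · intro j w hw hwρ
    obtain ⟨v, hv, hve⟩ := hg3 (φ j) w hw hwρ
    show a (φ j) + w ∈ Ω
    rw [← hve, ← hmove]
    exact hinv _ _ (hrΩ (hin _ v hv))
  · intro w hw hwρ hq
    obtain ⟨ε, hε, hev⟩ := claim1 _ hq
    obtain ⟨U, hU, hU0⟩ := pl_approx (fun j => hg1 (φ j)) hφt hψ0 hw
    have h1 : Tendsto (fun k => a (φ k) + U k) atTop (𝓝 (p + w)) := (ha.comp hφa).add hU
    have h2 : ∀ᶠ j in atTop, ‖U j‖ < δ * r := hU.norm.eventually_lt_const hwρ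
    obtain ⟨k, hk1, hk2, hk3, hk4⟩ := ((h1.eventually (closedBall_mem_nhds _ hε)).and
      ((hφa.eventually hev).and (hU0.and h2))).exists
    obtain ⟨v, hv, hve⟩ := hg3 (φ k) (U k) hk3 hk4.le
    refine hk2 v hv ?_
    rw [hve]; exact hk1

end good

end Pool.Agent.R522.Mk.Ten
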