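import Pool.Agent.R522.Mk.Ten2

set_option autoImplicit false

open Set Filter Topology Metric
open Pool.Agent.W689.Mk Pool.Agent.TH94.MK
open Pool.Agent.R774.MK (KLin Semi ker_eq ker_approx klin_of boundary_inv)

namespace Pool.Agent.R522.Mk.Ten

section main
variable {ι K W Γ X : Type} [Fintype ι] [DecidableEq ι] [Nonempty ι] [NormedDivisionRing K]
  [NormedAlgebra ℝ K] [FiniteDimensional ℝ K]
  [NormedAddCommGroup W] [NormedSpace ℝ W] [Module K W] [IsScalarTower ℝ K W] [IsBoundedSMul K W]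
  [FiniteDimensional ℝ W] [Group Γ] {hol : Γ →* ((ι → W) ≃ᵃ[ℝ] (ι → W))}
  [TopologicalSpace X] [T2Space X] [SecondCountableTopology X] [ConnectedSpace X] [MulAction Γ X]
  {dev : X → (ι → W)}

/-- the relation between the factors of an element and its inverse -/
theorem inv_rel (A A' : Γ → Matrix ι ι K) (B : Γ → W ≃ₗ[ℝ] W) (hA : ∀ γ, A' γ * A γ = 1)
    (hL : ∀ γ u i, (hol γ).linear u i = ∑ j, A γ i j • B γ (u j)) (γ : Γ) (i0 l : ι) (w : W) :
    B γ⁻¹ (A γ l i0 • B γ w) = A' γ⁻¹ l i0 • w := by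
  have h1 : ∀ u : ι → W, (hol γ⁻¹).linear ((hol γ).linear u) = u :=
    fun u => lin_inv_apply (hol := hol) γ u
  have h2 : ∀ i, (hol γ).linear (Pi.single i0 w) i = A γ i i0 • B γ w := by
    intro i
    rw [hL, Finset.sum_eq_single i0]
    · rw [Pi.single_eq_same]
    · intro j _ hj
      rw [Pi.single_eq_of_ne hj, map_zero, smul_zero]
    · intro h; exact absurd (Finset.mem_univ i0) h
  have h3 : ∀ k, ∑ i, A γ⁻¹ k i • B γ⁻¹ (A γ i i0 • B γ w) = (Pi.single i0 w : ι → W) k := by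
    intro k
    have := congrFun (h1 (Pi.single i0 w)) k
    rw [hL] at this
    rw [← this]
    exact Finset.sum_congr rfl fun i _ => by rw [h2]
  have h4 := inv_apply (hA γ⁻¹) (fun i => B γ⁻¹ (A γ i i0 • B γ w)) l
  rw [← h4]
  rw [Finset.sum_congr rfl fun i _ => by rw [h3 i]]
  rw [Finset.sum_eq_single i0]
  · rw [Pi.single_eq_same]
  · intro j _ hj
    rw [Pi.single_eq_of_ne hj, smul_zero]
  · intro h; exact absurd (Finset.mem_univ i0) h

/-- some entry of a column of a matrix with bounded inverse is not small -/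
theorem entry_large {A A' : Matrix ι ι K} (h : A' * A = 1) {C : ℝ}
    (hA' : ∀ i j, ‖A' i j‖ ≤ C) (i0 : ι) :
    ∃ l, 1 ≤ Fintype.card ι * (C * ‖A l i0‖) := by
  by_contra hcon
  push Not at hcon
  have h1 : (1 : K) = ∑ l, A' i0 l * A l i0 := by
    rw [← Matrix.mul_apply, h, Matrix.one_apply_eq]
  have hc : (0 : ℝ) < Fintype.card ι := by exact_mod_cast Fintype.card_pos
  have h2 : (1 : ℝ) < 1 := by
    calc (1 : ℝ) = ‖(1 : K)‖ := norm_one.symm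
      _ = ‖∑ l, A' i0 l * A l i0‖ := by rw [h1]
      _ ≤ ∑ l, ‖A' i0 l * A l i0‖ := norm_sum_le _ _
      _ ≤ ∑ l : ι, C * ‖A l i0‖ := by
          refine Finset.sum_le_sum fun l _ => ?_
          rw [norm_mul]
          exact mul_le_mul_of_nonneg_right (hA' _ _) (norm_nonneg _)
      _ < ∑ _l : ι, (1 : ℝ) / Fintype.card ι := by
          refine Finset.sum_lt_sum_of_nonempty Finset.univ_nonempty fun l _ => ?_
          rw [lt_div_iff₀ hc]
          have := hcon l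
          linarith
      _ = 1 := by
          rw [Finset.sum_const, Finset.card_univ, nsmul_eq_mul, mul_one_div_cancel hc.ne']
  exact lt_irrefl _ h2

theorem complete (D : AffData X Γ (ι → W) dev hol) (hinj : Function.Injective dev)
    (A A' : Γ → Matrix ι ι K) (B : Γ → W ≃ₗ[ℝ] W) (hA : ∀ γ, A' γ * A γ = 1) {C : ℝ}
    (hC1 : ∀ γ i j, ‖A γ i j‖ ≤ C) (hC2 : ∀ γ i j, ‖A' γ i j‖ ≤ C)
    (hL : ∀ γ u i, (hol γ).linear u i = ∑ j, A γ i j • B γ (u j))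
    (hsemi : ∀ γ : Γ, ∃ σ : K ≃+* K, Semi σ (B γ)) {δ : ℝ} (hδ : 0 < δ)
    (hV : ∀ γ : Γ, ∃ f : W →L[ℝ] K, KLin f ∧ f ≠ 0 ∧
      ∀ u, Pl f u → δ * ‖u‖ ≤ ‖(hol γ).linear u‖) : IsHomeomorph dev := by
  by_cases hall : ∀ p ∈ closure (range dev), p ∈ range dev
  · obtain ⟨x⟩ := (inferInstance : Nonempty X)
    refine homeo_of_all D.loc (x := x) fun v => Geod.ex D.loc ?_
    by_contra hv
    obtain ⟨t, -, -, h1, h2⟩ := exit_point D.loc hinj hv
    exact h1 (hall _ h2)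
  push Not at hall
  obtain ⟨p0, hp0, hp0'⟩ := hall
  obtain ⟨C0, hC0, hC0r, hcc⟩ := range_cc D
  obtain ⟨ρ, hρ, hB⟩ := good_of_boundary (K := K) D.loc.isOpenMap.isOpen_range (range_inv D)
    (range_pd D hinj) hC0 hC0r hcc hδ A A' B hA hL hsemi hV
  obtain ⟨ψ, hψ⟩ := hB p0 hp0 hp0'
  obtain ⟨v0, hv0⟩ := hψ.1.1.exists_one hψ.1.2.1
  have hv0ne : v0 ≠ 0 := by
    intro h
    rw [h, map_zero] at hv0
    exact zero_ne_one hv0
  obtain ⟨i0⟩ := (inferInstance : Nonempty ι)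
  have hCpos : 0 < C := by
    obtain ⟨l, hl⟩ := entry_large (hA 1) (hC2 1) i0
    by_contra hcon
    push Not at hcon
    have h1 : C * ‖A 1 l i0‖ ≤ 0 := mul_nonpos_of_nonpos_of_nonneg hcon (norm_nonneg _)
    have h2 : (Fintype.card ι : ℝ) * (C * ‖A 1 l i0‖) ≤ 0 :=
      mul_nonpos_of_nonneg_of_nonpos (Nat.cast_nonneg _) h1
    linarith
  -- completeness in the directions of the plate
  have hcomp : ∀ (x : X) (v : ι → W), Pl ψ v → Geod dev x v := by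
    intro x v hv
    by_contra hg
    obtain ⟨t, -, -, h1, h2⟩ := exit_point D.loc hinj hg
    obtain ⟨φ, hφ⟩ := hB _ h2 h1
    have h3 : Pl φ (-(t • v)) := ((hv.congr (parallel hρ hB hψ hφ)).smul t).neg
    obtain ⟨-, h4, -⟩ := whole hρ hB hφ h3
    apply h4
    rw [add_neg_cancel_right]
    exact mem_range_self x
  -- invariance of the kernel
  have hinv1 : ∀ (γ : Γ) (w : W), ψ w = 0 → ψ ((B γ).symm w) = 0 := by
    intro γ w hw
    obtain ⟨σ, hσ⟩ := hsemi γ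
    obtain ⟨g, hg1, -, hg3⟩ := hσ.push hv0ne hψ.1.1 hψ.1.2.1
    obtain ⟨h1, h2⟩ := boundary_inv D γ hp0 hp0'
    obtain ⟨φ, hφ⟩ := hB _ h1 h2
    have h3 : ∀ u, Pl g u → ‖u‖ < 1 → hol γ p0 + u ∉ range dev := by
      intro u hu _
      have h4 : Pl ψ ((hol γ).linear.symm u) := by
        refine pl_push (hA γ) (hL γ) hg1 hg3 ?_
        rw [LinearEquiv.apply_symm_apply]
        exact hu
      obtain ⟨h5, h6, -⟩ := whole hρ hB hψ h4
      have h7 := (boundary_inv D γ h5 h6).2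
      rw [hol_add] at h7
      simpa [lin] using h7
    have h4 := crossing hρ hφ.1 hg1 one_pos h3 w ((parallel hρ hB hψ hφ w).1 hw)
    exact hg3 _ (by simpa using h4)
  have hinv : ∀ (γ : Γ) (w : W), ψ w = 0 → ψ (B γ w) = 0 := by
    intro γ w hw
    obtain ⟨l, hl⟩ := entry_large (hA γ) (hC2 γ) i0
    have hne : A γ l i0 ≠ 0 := by
      intro h
      rw [h, norm_zero, mul_zero, mul_zero] at hl
      linarith
    have h1 := inv_rel A A' B hA hL γ i0 l w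
    have h2 : A γ l i0 • B γ w = (B γ⁻¹).symm (A' γ⁻¹ l i0 • w) := by
      rw [LinearEquiv.eq_symm_apply]; exact h1
    have h3 : ψ (A γ l i0 • B γ w) = 0 := by
      rw [h2]
      exact hinv1 _ _ (by rw [hψ.1.1, hw, mul_zero])
    rw [hψ.1.1] at h3
    exact (mul_eq_zero.1 h3).resolve_left hne
  have hdec : ∀ (γ : Γ) (σ : K ≃+* K), Semi σ (B γ) → ∀ w, ψ (B γ w) = σ (ψ w) * ψ (B γ v0) := by
    intro γ σ hσ w
    have h1 : ψ (w - ψ w • v0) = 0 := by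
      rw [map_sub, hψ.1.1, hv0, mul_one, sub_self]
    have h2 := hinv γ _ h1
    rw [map_sub, map_sub, sub_eq_zero, hσ, hψ.1.1] at h2
    exact h2
  -- the product of the dilatations is bounded
  have hprod : ∀ γ, ‖ψ (B γ v0)‖ * ‖ψ (B γ⁻¹ v0)‖ ≤ Fintype.card ι * (C * C) := by
    intro γ
    obtain ⟨l, hl⟩ := entry_large (hA γ) (hC2 γ) i0
    obtain ⟨σ, hσ⟩ := hsemi γ⁻¹
    have h1 := congrArg ψ (inv_rel A A' B hA hL γ i0 l v0)
    rw [hdec γ⁻¹ σ hσ, hψ.1.1, hψ.1.1, hv0, mul_one, map_mul] at h1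
    have h2 := congrArg norm h1
    rw [norm_mul, norm_mul, hσ.norm_eq hv0ne, hσ.norm_eq hv0ne] at h2
    have h3 : ‖A' γ⁻¹ l i0‖ ≤ C := hC2 _ _ _
    have h4 : 0 ≤ ‖ψ (B γ v0)‖ * ‖ψ (B γ⁻¹ v0)‖ := by positivity
    have hc : (0 : ℝ) ≤ Fintype.card ι := Nat.cast_nonneg _
    calc ‖ψ (B γ v0)‖ * ‖ψ (B γ⁻¹ v0)‖
        ≤ (Fintype.card ι * (C * ‖A γ l i0‖)) * (‖ψ (B γ v0)‖ * ‖ψ (B γ⁻¹ v0)‖) := by
          nlinarith
      _ = Fintype.card ι * (C * (‖A γ l i0‖ * ‖ψ (B γ v0)‖ * ‖ψ (B γ⁻¹ v0)‖)) := by ring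
      _ = Fintype.card ι * (C * ‖A' γ⁻¹ l i0‖) := by rw [h2]
      _ ≤ Fintype.card ι * (C * C) := by gcongr
  -- the induced maps of `K ^ ι`
  let Ψ : (ι → W) →L[ℝ] (ι → K) := ContinuousLinearMap.pi fun i =>
    ψ.comp (ContinuousLinearMap.proj i)
  have hΨ : ∀ u i, Ψ u i = ψ (u i) := fun u i => rfl
  let rl : Γ → (ι → K) →ₗ[ℝ] (ι → K) := fun γ =>
    { toFun := fun κ => Ψ ((hol γ).linear fun i => κ i • v0)
      map_add' := fun a b => by
        rw [← map_add, ← map_add]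
        congr 2
        funext i
        rw [Pi.add_apply, Pi.add_apply, add_smul]
      map_smul' := fun r a => by
        rw [RingHom.id_apply, ← map_smul, ← map_smul]
        congr 2
        funext i
        rw [Pi.smul_apply, Pi.smul_apply, smul_assoc] }
  have hrl' : ∀ γ κ i, rl γ κ i = ∑ j, A γ i j * ψ (B γ (κ j • v0)) := by
    intro γ κ i
    show ψ ((hol γ).linear (fun i => κ i • v0) i) = _
    rw [hL, map_sum]
    exact Finset.sum_congr rfl fun j _ => hψ.1.1 _ _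
  have hrl : ∀ γ u, Ψ ((hol γ).linear u) = rl γ (Ψ u) := by
    intro γ u
    funext i
    rw [hrl', hΨ, hL, map_sum]
    refine Finset.sum_congr rfl fun j _ => ?_
    rw [hψ.1.1]
    have h1 : ψ (u j - ψ (u j) • v0) = 0 := by
      rw [map_sub, hψ.1.1, hv0, mul_one, sub_self]
    have h2 := hinv γ _ h1
    rw [map_sub, map_sub, sub_eq_zero] at h2
    rw [h2, hΨ]
  have hrn : ∀ γ κ, ‖rl γ κ‖ ≤ (Fintype.card ι * (C * ‖ψ (B γ v0)‖)) * ‖κ‖ := by
    intro γ κ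
    refine (pi_norm_le_iff_of_nonneg (by positivity)).2 fun i => ?_
    rw [hrl']
    obtain ⟨σ, hσ⟩ := hsemi γ
    calc ‖∑ j, A γ i j * ψ (B γ (κ j • v0))‖ ≤ ∑ j, ‖A γ i j * ψ (B γ (κ j • v0))‖ :=
          norm_sum_le _ _
      _ ≤ ∑ _j : ι, C * (‖κ‖ * ‖ψ (B γ v0)‖) := by
          refine Finset.sum_le_sum fun j _ => ?_
          rw [norm_mul, hσ, hψ.1.1, norm_mul, hσ.norm_eq hv0ne]
          have h1 := norm_le_pi_norm κ j
          have h2 := hC1 γ i j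
          gcongr
      _ = (Fintype.card ι * (C * ‖ψ (B γ v0)‖)) * ‖κ‖ := by
          rw [Finset.sum_const, Finset.card_univ, nsmul_eq_mul]; ring
  let T : (ι → K) ≃L[ℝ] EuclideanSpace ℝ (Fin (Module.finrank ℝ (ι → K))) := toEuclidean
  let rc : Γ → (ι → K) →L[ℝ] (ι → K) := fun γ => LinearMap.toContinuousLinearMap (rl γ)
  have hrc : ∀ γ, ‖rc γ‖ ≤ Fintype.card ι * (C * ‖ψ (B γ v0)‖) := by
    intro γ
    exact ContinuousLinearMap.opNorm_le_bound _ (by positivity) fun κ => hrn γ κ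
  let Tc : (ι → K) →L[ℝ] EuclideanSpace ℝ (Fin (Module.finrank ℝ (ι → K))) := T
  let Ts : EuclideanSpace ℝ (Fin (Module.finrank ℝ (ι → K))) →L[ℝ] (ι → K) := T.symm
  let r : Γ → EuclideanSpace ℝ (Fin (Module.finrank ℝ (ι → K))) →L[ℝ]
    EuclideanSpace ℝ (Fin (Module.finrank ℝ (ι → K))) := fun γ => Tc.comp ((rc γ).comp Ts)
  obtain ⟨C', hC0', hC'⟩ : ∃ C' : ℝ, 0 < C' ∧ ∀ γ, ‖r γ‖ ≤ C' * ‖ψ (B γ v0)‖ := by
    refine ⟨‖Tc‖ * ‖Ts‖ * (Fintype.card ι * C) + 1, by positivity, fun γ => ?_⟩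
    calc ‖r γ‖ ≤ ‖Tc‖ * ‖(rc γ).comp Ts‖ := ContinuousLinearMap.opNorm_comp_le _ _
      _ ≤ ‖Tc‖ * (‖rc γ‖ * ‖Ts‖) := by
          gcongr; exact ContinuousLinearMap.opNorm_comp_le _ _
      _ ≤ ‖Tc‖ * ((Fintype.card ι * (C * ‖ψ (B γ v0)‖)) * ‖Ts‖) := by
          gcongr; exact hrc γ
      _ = (‖Tc‖ * ‖Ts‖ * (Fintype.card ι * C)) * ‖ψ (B γ v0)‖ := by ring
      _ ≤ _ := by gcongr; linarith
  refine Pool.Agent.TH569.MK.exp_chain_complete D
    (fun _ => LinearMap.ker (Ψ : (ι → W) →ₗ[ℝ] (ι → K))) 0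
    (fun x v hv => hcomp x v fun i => congrFun hv i)
    (fun i hi => absurd hi (Nat.not_lt_zero i)) (Tc.comp Ψ) ?_ ?_ r ?_ ?_
  · intro q
    refine ⟨fun i => Ts q i • v0, ?_⟩
    have h1 : Ψ (fun i => Ts q i • v0) = Ts q := by
      funext i
      rw [hΨ, hψ.1.1, hv0, mul_one]
    show T (Ψ (fun i => Ts q i • v0)) = q
    rw [h1]
    exact T.apply_symm_apply q
  · intro v hv
    have h1 : T (Ψ v) = 0 := hv
    exact T.injective (h1.trans (map_zero T).symm)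
  · intro γ v
    show T (Ψ ((hol γ).linear v)) = T (rl γ (T.symm (T (Ψ v))))
    rw [T.symm_apply_apply, hrl]
  · intro ε hε
    set M : ℝ := Fintype.card ι * (C * C) with hM
    have hcard : (0 : ℝ) < Fintype.card ι := by exact_mod_cast Fintype.card_pos
    have hMpos : 0 < M := by positivity
    refine ⟨C' ^ 2 * M / ε, fun γ hγ => ?_⟩
    have h1 := hγ.trans (hC' γ)
    have h2 := hC' γ⁻¹
    have h3 := hprod γ
    rw [div_le_iff₀ hε] at h1
    have h4 : C' * M ≤ ‖ψ (B γ v0)‖ * ε := by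
      have : C' * (C' * M) ≤ C' * (‖ψ (B γ v0)‖ * ε) := by
        calc C' * (C' * M) = C' ^ 2 * M := by ring
          _ ≤ C' * ‖ψ (B γ v0)‖ * ε := h1
          _ = _ := by ring
      exact le_of_mul_le_mul_left this hC0'
    have h5 : 0 < ‖ψ (B γ v0)‖ := by
      by_contra hcon
      have h6 : ‖ψ (B γ v0)‖ = 0 := le_antisymm (not_lt.1 hcon) (norm_nonneg _)
      rw [h6, zero_mul] at h4
      have : 0 < C' * M := by positivity
      linarith
    have h7 : C' * ‖ψ (B γ⁻¹ v0)‖ ≤ ε := by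
      have h8 : ‖ψ (B γ v0)‖ * (C' * ‖ψ (B γ⁻¹ v0)‖) ≤ ‖ψ (B γ v0)‖ * ε := by
        calc ‖ψ (B γ v0)‖ * (C' * ‖ψ (B γ⁻¹ v0)‖)
            = C' * (‖ψ (B γ v0)‖ * ‖ψ (B γ⁻¹ v0)‖) := by ring
          _ ≤ C' * M := by gcongr
          _ ≤ _ := h4
      exact le_of_mul_le_mul_left h8 h5
    exact h2.trans h7

/-- lower bounds on plates -/
theorem lower {A A' : Matrix ι ι K} (hA : A' * A = 1) {C : ℝ} (hC : 0 < C)
    (hA' : ∀ i j, ‖A' i j‖ ≤ C) {B : W ≃ₗ[ℝ] W} {L : (ι → W) ≃ₗ[ℝ] (ι → W)}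
    (hL : ∀ u i, L u i = ∑ j, A i j • B (u j)) {f : W →L[ℝ] K} {δ : ℝ} (hδ : 0 < δ)
    (hf : ∀ v, f v = 0 → δ * ‖v‖ ≤ ‖B v‖) {u : ι → W} (hu : Pl f u) :
    δ / (Fintype.card ι * C) * ‖u‖ ≤ ‖L u‖ := by
  have hcard : (0 : ℝ) < Fintype.card ι := by exact_mod_cast Fintype.card_pos
  have h1 : ‖u‖ ≤ ‖L u‖ * (Fintype.card ι * C) / δ := by
    refine (pi_norm_le_iff_of_nonneg (by positivity)).2 fun k => ?_
    rw [le_div_iff₀ hδ]
    have h2 := hf (u k) (hu k)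
    have h3 : B (u k) = ∑ i, A' k i • (L u) i := by
      rw [← inv_apply hA (fun j => B (u j)) k]
      exact Finset.sum_congr rfl fun i _ => by rw [hL]
    have h4 : ‖B (u k)‖ ≤ ∑ _i : ι, C * ‖L u‖ := by
      rw [h3]
      refine (norm_sum_le _ _).trans (Finset.sum_le_sum fun i _ => ?_)
      refine (_root_.norm_smul_le _ _).trans ?_
      exact mul_le_mul (hA' k i) (norm_le_pi_norm (L u) i) (norm_nonneg _) hC.le
    rw [Finset.sum_const, Finset.card_univ, nsmul_eq_mul] at h4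
    calc ‖u k‖ * δ = δ * ‖u k‖ := mul_comm _ _
      _ ≤ ‖B (u k)‖ := h2
      _ ≤ Fintype.card ι * (C * ‖L u‖) := h4
      _ = ‖L u‖ * (Fintype.card ι * C) := by ring
  rw [le_div_iff₀ hδ] at h1
  rw [div_mul_eq_mul_div, div_le_iff₀ (by positivity), mul_comm δ]
  exact h1

theorem complete' (D : AffData X Γ (ι → W) dev hol) (hinj : Function.Injective dev)
    (A : Γ → Matrix ι ι K) (B : Γ → W ≃ₗ[ℝ] W) {C : ℝ}
    (hA : ∀ γ, (∀ i j, ‖A γ i j‖ ≤ C) ∧ ∃ A' : Matrix ι ι K, A' * A γ = 1 ∧ ∀ i j, ‖A' i j‖ ≤ C)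
    (hL : ∀ γ u i, (hol γ).linear u i = ∑ j, A γ i j • B γ (u j))
    (hsemi : ∀ γ : Γ, ∃ σ : K ≃+* K, Semi σ (B γ)) {δ : ℝ} (hδ : 0 < δ)
    (hV : ∀ γ : Γ, ∃ f : W →L[ℝ] K, KLin f ∧ f ≠ 0 ∧ ∀ v, f v = 0 → δ * ‖v‖ ≤ ‖B γ v‖) :
    IsHomeomorph dev := by
  choose A' hA1 hA2 using fun γ => (hA γ).2
  obtain ⟨i0⟩ := (inferInstance : Nonempty ι)
  have hCpos : 0 < C := by
    obtain ⟨l, hl⟩ := entry_large (hA1 1) (hA2 1) i0
    by_contra hcon
    push Not at hcon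
    have h1 : C * ‖A 1 l i0‖ ≤ 0 := mul_nonpos_of_nonpos_of_nonneg hcon (norm_nonneg _)
    have h2 : (Fintype.card ι : ℝ) * (C * ‖A 1 l i0‖) ≤ 0 :=
      mul_nonpos_of_nonneg_of_nonpos (Nat.cast_nonneg _) h1
    linarith
  have hcard : (0 : ℝ) < Fintype.card ι := by exact_mod_cast Fintype.card_pos
  refine complete D hinj A A' B hA1 (fun γ => (hA γ).1) hA2 hL hsemi
    (δ := δ / (Fintype.card ι * C)) (by positivity) fun γ => ?_
  obtain ⟨f, hf1, hf2, hf3⟩ := hV γ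
  exact ⟨f, hf1, hf2, fun u hu => lower (hA1 γ) hCpos (hA2 γ) (hL γ) hδ hf3 hu⟩

end main

end Pool.Agent.R522.Mk.Ten
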